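import Pool.Agent.helper68.AM.SpecX

/-! # sl: XM. Every index comes from a mapping class -/

set_option autoImplicit false

namespace AM

open Pool.Agent.helper72.Sq Matrix

/-- pairs coming from mapping classes -/
def XM_Good (x : F2 × F2) : Prop := ∃ φ : MulAut F2, φ ∈ MCG ∧ PConj x (φ ga, φ gb)

lemma XM_A : (twA : MulAut F2) ∈ MCG := Subgroup.subset_closure (by simp)
lemma XM_B : (twB : MulAut F2) ∈ MCG := Subgroup.subset_closure (by simp)

/-- the quarter turn -/
def XM_T : MulAut F2 := twB * twA⁻¹ * twB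

lemma XM_T_mem : XM_T ∈ MCG := MCG.mul_mem (MCG.mul_mem XM_B (MCG.inv_mem XM_A)) XM_B

lemma XM_T_a : XM_T ga = gb := by
  simp only [XM_T, MulAut.mul_apply, twB_a]
  rw [map_mul]
  change twB (twA.symm ga * twA.symm gb) = gb
  simp

lemma XM_T_b : XM_T gb = gb⁻¹ * ga⁻¹ * gb := by
  simp only [XM_T, MulAut.mul_apply, twB_b]
  change twB (twA.symm gb) = _
  simp

lemma XM_one : XM_Good (ga, gb) := ⟨1, MCG.one_mem, 1, by simp, by simp⟩

lemma XM_L (x : F2 × F2) (h : XM_Good x) : XM_Good (x.1, x.1 * x.2) := by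
  obtain ⟨φ, hφ, c, h1, h2⟩ := h
  simp only at h1 h2
  refine ⟨φ * twA, MCG.mul_mem hφ XM_A, c, ?_, ?_⟩
  · simp only [MulAut.mul_apply, twA_a, h1]
  · simp only [MulAut.mul_apply, twA_b, map_mul, h1, h2]
    group

lemma XM_R (x : F2 × F2) (h : XM_Good x) : XM_Good (x.1 * x.2, x.2) := by
  obtain ⟨φ, hφ, c, h1, h2⟩ := h
  simp only at h1 h2
  refine ⟨φ * twB, MCG.mul_mem hφ XM_B, c, ?_, ?_⟩
  · simp only [MulAut.mul_apply, twB_a, map_mul, h1, h2]
    group
  · simp only [MulAut.mul_apply, twB_b, h2]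

lemma XM_qt (x : F2 × F2) (h : XM_Good x) : XM_Good (qt x) := by
  obtain ⟨φ, hφ, c, h1, h2⟩ := h
  simp only at h1 h2
  refine ⟨φ * XM_T, MCG.mul_mem hφ XM_T_mem, c * x.2⁻¹, ?_, ?_⟩
  · simp only [MulAut.mul_apply, XM_T_a, h2, qt]
    group
  · simp only [MulAut.mul_apply, XM_T_b, map_mul, map_inv, h1, h2, qt]
    group

lemma XM_iter (n : ℕ) (x : F2 × F2) (h : XM_Good x) : XM_Good (qt^[n] x) := by
  induction n generalizing x with
  | zero => exact h
  | succ n ih => exact ih (qt x) (XM_qt x h)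

lemma XM_pd (w : List Bool) (x : F2 × F2) (h : XM_Good x) : XM_Good (pd w x) := by
  induction w generalizing x with
  | nil => exact h
  | cons a w ih =>
    cases a
    · exact ih _ (XM_R x h)
    · exact ih _ (XM_L x h)

lemma XM_root (ε : Bool) : XM_Good (rootp ε) := by
  cases ε
  · have h := XM_qt (ga, gb) XM_one
    simpa [rootp, qt] using h
  · simpa [rootp] using XM_one

theorem XM : XM_stmt := by
  intro i
  exact XM_iter _ _ (XM_pd _ _ (XM_root _))

end AM
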