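import Pool.Agent.helper89.AM.Blk

set_option autoImplicit false

/-!
# From the bound for one pair of primes to the average, both signs
-/

namespace Pool.Agent.helper89.AM

open Finset NumberField Pool.Agent.helper47.RA Filter

open Classical in
/-- the bound for one pair of primes, with saving `X ^ s` -/
def PAIR (p : ℕ) (s : ℝ) : Prop :=
  ∃ c : ℝ, 0 < c ∧ ∀ ε : ℝ, 0 < ε → ∃ C : ℝ, 0 ≤ C ∧ ∀ X Z q₁ q₂ : ℕ, 1 ≤ X → 5 ≤ Z →
    c * (X : ℝ) ^ s ≤ Z → (Z : ℝ) ≤ 2 * (c * (X : ℝ) ^ s) →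
    q₁.Prime → q₂.Prime → q₁ ≠ q₂ → Z < q₁ → q₁ ≤ 4 * Z → Z < q₂ → q₂ ≤ 4 * Z →
    ((((blk X).filter (fun D => IsFund D ∧ SolZ ((q₁ * q₂) ^ p) D)).card : ℕ) : ℝ) ≤
      C * (X : ℝ) ^ (1 - s + ε)

open Classical in
/-- the number of collisions of a block -/
lemma sum_offZ_le (p X : ℕ) (P : Finset ℕ) (B : ℝ)
    (h : ∀ q₁ ∈ P, ∀ q₂ ∈ P, q₁ ≠ q₂ →
      ((((blk X).filter (fun D => IsFund D ∧ SolZ ((q₁ * q₂) ^ p) D)).card : ℕ) : ℝ) ≤ B)
    (hB : 0 ≤ B) :
    ∑ D ∈ (blk X).filter IsFund, (offZ p P D : ℝ) ≤ (P.card : ℝ) ^ 2 * B := by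
  have h1 : ∑ D ∈ (blk X).filter IsFund, (offZ p P D : ℝ) =
      ∑ ij ∈ P ×ˢ P, ∑ D ∈ (blk X).filter IsFund,
        (if ij.1 ≠ ij.2 ∧ SolZ ((ij.1 * ij.2) ^ p) D then (1 : ℝ) else 0) := by
    rw [Finset.sum_comm]
    refine Finset.sum_congr rfl fun D _ => ?_
    rw [offZ, Finset.card_filter]
    push_cast
    rfl
  rw [h1]
  have h2 : ∀ ij ∈ P ×ˢ P, ∑ D ∈ (blk X).filter IsFund,
        (if ij.1 ≠ ij.2 ∧ SolZ ((ij.1 * ij.2) ^ p) D then (1 : ℝ) else 0) ≤ B := by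
    intro ij hij
    rw [Finset.mem_product] at hij
    by_cases hne : ij.1 = ij.2
    · have : ∑ D ∈ (blk X).filter IsFund,
        (if ij.1 ≠ ij.2 ∧ SolZ ((ij.1 * ij.2) ^ p) D then (1 : ℝ) else 0) = 0 := by
        refine Finset.sum_eq_zero fun D _ => ?_
        rw [if_neg]
        rintro ⟨h3, _⟩
        exact h3 hne
      rw [this]
      exact hB
    · refine le_trans (le_of_eq ?_) (h ij.1 hij.1 ij.2 hij.2 hne)
      rw [← Finset.sum_filter, Finset.sum_const, nsmul_eq_mul, mul_one, Finset.filter_filter]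
      congr 2
      apply Finset.filter_congr
      intro D _
      tauto
  refine (Finset.sum_le_sum h2).trans (le_of_eq ?_)
  rw [Finset.sum_const, Finset.card_product, nsmul_eq_mul]
  push_cast
  ring

open Classical in
/-- the sum over a dyadic block -/
theorem block_pair (p : ℕ) (hp : Odd p) (s : ℝ) (hs0 : 0 < s) (hs : s ≤ 1 / 3)
    (hsp : 1 < s * p) (hpair : PAIR p s) (ε : ℝ) (hε : 0 < ε) :
    ∃ K : ℝ, 0 < K ∧ ∀ f : ℤ → ℕ,
      (∀ (K : Type) [Field K] [NumberField K], Module.finrank ℚ K = 2 →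
        f (NumberField.discr K) =
          Nat.card {x : ClassGroup (NumberField.RingOfIntegers K) // x ^ p = 1}) →
      ∀ X : ℕ, 1 ≤ X → ∑ D ∈ (blk X).filter IsFund, (f D : ℝ) ≤
        K * (X : ℝ) ^ (3 / 2 - s + 2 * ε) := by
  obtain ⟨c, hc, hpair⟩ := hpair
  obtain ⟨C₁, hC₁, hpair⟩ := hpair ε hε
  obtain ⟨C, hC, hblock⟩ := block_both ε hε
  obtain ⟨Z₀, hZ₀2, hcheb⟩ := card_primes_ge
  -- threshold
  have hlim : Tendsto (fun X : ℕ => c * (X : ℝ) ^ s) atTop atTop :=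
    Tendsto.const_mul_atTop hc ((tendsto_rpow_atTop hs0).comp tendsto_natCast_atTop_atTop)
  have hlim2 : Tendsto (fun X : ℕ => c ^ p * (X : ℝ) ^ (s * p - 1)) atTop atTop :=
    Tendsto.const_mul_atTop (pow_pos hc p)
      ((tendsto_rpow_atTop (by linarith)).comp tendsto_natCast_atTop_atTop)
  obtain ⟨X₀, hX₀⟩ := Filter.eventually_atTop.1
    ((hlim.eventually_ge_atTop ((max Z₀ (4096 * p ^ 2) + 17 : ℕ) : ℝ)).and
      (hlim2.eventually_gt_atTop 2))
  set K₁ : ℝ := 4 * ((8 * (c + 1)) ^ ε / ε) / c with hK₁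
  have hK₁0 : 0 < K₁ := by positivity
  set K : ℝ := C * (K₁ + 4 * c ^ 2 + C₁) + C * ((X₀ : ℝ) + 1) with hK
  have hK0 : 0 < K := by positivity
  refine ⟨K, hK0, fun f hf X hX => ?_⟩
  obtain ⟨htriv, hmain⟩ := hblock p f hp hf X hX
  have hXR : (1 : ℝ) ≤ X := by exact_mod_cast hX
  have hX0 : (0 : ℝ) < X := by linarith
  by_cases hlarge : X < X₀
  · have h1 : (X : ℝ) ≤ ((X₀ : ℝ) + 1) * (X : ℝ) ^ (1 - s + ε) := by
      have h2 : (1 : ℝ) ≤ (X : ℝ) ^ (1 - s + ε) := Real.one_le_rpow hXR (by linarith)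
      have h3 : (X : ℝ) ≤ (X₀ : ℝ) := by exact_mod_cast hlarge.le
      nlinarith
    calc ∑ D ∈ (blk X).filter IsFund, (f D : ℝ)
        ≤ C * (X : ℝ) ^ (1 / 2 + ε) * X := htriv
      _ ≤ C * (X : ℝ) ^ (1 / 2 + ε) * (((X₀ : ℝ) + 1) * (X : ℝ) ^ (1 - s + ε)) :=
          mul_le_mul_of_nonneg_left h1 (by positivity)
      _ = C * ((X₀ : ℝ) + 1) * ((X : ℝ) ^ (1 / 2 + ε) * (X : ℝ) ^ (1 - s + ε)) := by ring
      _ = C * ((X₀ : ℝ) + 1) * (X : ℝ) ^ (3 / 2 - s + 2 * ε) := by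
          rw [← Real.rpow_add hX0]
          congr 2
          ring
      _ ≤ K * (X : ℝ) ^ (3 / 2 - s + 2 * ε) := by
          refine mul_le_mul_of_nonneg_right ?_ (by positivity)
          rw [hK]
          have : 0 ≤ C * (K₁ + 4 * c ^ 2 + C₁) := by positivity
          linarith
  · push Not at hlarge
    obtain ⟨hXa, hXb⟩ := hX₀ X hlarge
    have h17 : (17 : ℝ) ≤ c * (X : ℝ) ^ s := by
      refine le_trans ?_ hXa
      push_cast
      have : (0 : ℝ) ≤ max (Z₀ : ℝ) (4096 * (p : ℝ) ^ 2) := le_max_of_le_left (by positivity)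
      linarith
    set Z : ℕ := ⌈c * (X : ℝ) ^ s⌉₊ with hZ
    have hZge : c * (X : ℝ) ^ s ≤ Z := Nat.le_ceil _
    have hZle : (Z : ℝ) ≤ 2 * (c * (X : ℝ) ^ s) := by
      have : (Z : ℝ) < c * (X : ℝ) ^ s + 1 := Nat.ceil_lt_add_one (by positivity)
      linarith
    have hZbig : max Z₀ (4096 * p ^ 2) + 17 ≤ Z := by
      have := hXa.trans hZge
      exact_mod_cast this
    have hZZ₀ : Z₀ ≤ Z := by
      have := le_max_left Z₀ (4096 * p ^ 2)
      omega
    have hZp2 : 4096 * p ^ 2 ≤ Z := by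
      have := le_max_right Z₀ (4096 * p ^ 2)
      omega
    have hZR : (1 : ℝ) ≤ Z := by linarith
    have hZ0 : (0 : ℝ) < Z := by linarith
    have hsplit : (X : ℝ) ^ (s * p) = (X : ℝ) ^ (s * p - 1) * X := by
      rw [Real.rpow_sub hX0, Real.rpow_one]
      field_simp
    -- 2 X < Z ^ p
    have hZp : 2 * X < Z ^ p := by
      have h1 : (2 * X : ℝ) < (Z : ℝ) ^ p := by
        calc (2 * X : ℝ) < (c ^ p * (X : ℝ) ^ (s * p - 1)) * X :=
              mul_lt_mul_of_pos_right hXb hX0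
          _ = (c * (X : ℝ) ^ s) ^ p := by
              rw [mul_pow, ← Real.rpow_natCast ((X : ℝ) ^ s), ← Real.rpow_mul hX0.le, hsplit]
              ring
          _ ≤ (Z : ℝ) ^ p := pow_le_pow_left₀ (by positivity) hZge p
      exact_mod_cast h1
    -- many primes
    set π : ℕ := (prs Z).card with hπ
    have hch := hcheb Z hZZ₀
    have hπ' : ((Finset.Ioc Z (4 * Z)).filter Nat.Prime).card = π := rfl
    rw [hπ'] at hch
    have hlog0 : 0 < Real.log (4 * Z) := Real.log_pos (by linarith)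
    have hπ4 : 4 * p ≤ π := by
      have h1 : Real.log (4 * Z) ≤ 4 * √(Z : ℝ) := by
        have h2 := Real.log_le_rpow_div (x := 4 * (Z : ℝ)) (by positivity)
          (show (0 : ℝ) < 1 / 2 by norm_num)
        have h3 : (4 * (Z : ℝ)) ^ (1 / 2 : ℝ) = 2 * √(Z : ℝ) := by
          rw [← Real.sqrt_eq_rpow, Real.sqrt_mul (by norm_num)]
          congr 1
          rw [show (4 : ℝ) = 2 ^ 2 by norm_num, Real.sqrt_sq (by norm_num)]
        rw [h3] at h2
        linarith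
      have h2 : √(Z : ℝ) * √(Z : ℝ) = Z := Real.mul_self_sqrt hZ0.le
      have h3 : 64 * (p : ℝ) ≤ √(Z : ℝ) := by
        refine Real.le_sqrt_of_sq_le ?_
        have : ((4096 * p ^ 2 : ℕ) : ℝ) ≤ Z := by exact_mod_cast hZp2
        push_cast at this
        linarith
      have h4 : (0 : ℝ) < √(Z : ℝ) := Real.sqrt_pos.2 hZ0
      have h5 : √(Z : ℝ) * √(Z : ℝ) ≤ √(Z : ℝ) * (16 * (π : ℝ)) := by
        calc √(Z : ℝ) * √(Z : ℝ) = Z := h2
          _ ≤ 4 * Real.log (4 * Z) * π := hch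
          _ ≤ 4 * (4 * √(Z : ℝ)) * π := by
              refine mul_le_mul_of_nonneg_right ?_ (Nat.cast_nonneg _)
              linarith
          _ = _ := by ring
      have h6 : √(Z : ℝ) ≤ 16 * (π : ℝ) := le_of_mul_le_mul_left h5 h4
      have h7 : (4 * (p : ℝ)) ≤ π := by linarith
      exact_mod_cast h7
    have hπpos : (0 : ℝ) < π := by
      have h1 : 0 < p := hp.pos
      have : 0 < π := by omega
      exact_mod_cast this
    have hm := hmain Z (by omega) hZp hπ4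
    rw [← hπ] at hm
    refine hm.trans ?_
    -- first term
    have hT1 : (X : ℝ) / π ≤ K₁ * (X : ℝ) ^ (1 - s + ε) := by
      have h1 : (X : ℝ) / π ≤ 4 * Real.log (4 * Z) * (X / Z) := by
        rw [div_le_iff₀ hπpos]
        have h2 : 4 * Real.log (4 * Z) * ((X : ℝ) / Z) * π =
            (X / Z) * (4 * Real.log (4 * Z) * π) := by ring
        rw [h2]
        calc (X : ℝ) = (X / Z) * Z := by field_simp
          _ ≤ _ := mul_le_mul_of_nonneg_left hch (by positivity)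
      have h2 : Real.log (4 * Z) ≤ (8 * (c + 1)) ^ ε / ε * (X : ℝ) ^ ε := by
        have h3 := Real.log_le_rpow_div (x := 4 * (Z : ℝ)) (by positivity) hε
        have h4 : 4 * (Z : ℝ) ≤ 8 * (c + 1) * X := by
          have h5 : (X : ℝ) ^ s ≤ X := by
            calc (X : ℝ) ^ s ≤ (X : ℝ) ^ (1 : ℝ) :=
                  Real.rpow_le_rpow_of_exponent_le hXR (by linarith)
              _ = X := Real.rpow_one _
          have h6 : c * (X : ℝ) ^ s ≤ (c + 1) * X :=
            mul_le_mul (by linarith) h5 (by positivity) (by positivity)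
          linarith
        have h5 : (4 * (Z : ℝ)) ^ ε ≤ (8 * (c + 1)) ^ ε * (X : ℝ) ^ ε := by
          rw [← Real.mul_rpow (by positivity) hX0.le]
          exact Real.rpow_le_rpow (by positivity) h4 hε.le
        calc Real.log (4 * Z) ≤ (4 * (Z : ℝ)) ^ ε / ε := h3
          _ ≤ ((8 * (c + 1)) ^ ε * (X : ℝ) ^ ε) / ε := div_le_div_of_nonneg_right h5 hε.le
          _ = _ := by ring
      have h3 : (X : ℝ) / Z ≤ (X : ℝ) ^ (1 - s) / c := by
        rw [Real.rpow_sub hX0, Real.rpow_one, div_div]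
        refine div_le_div_of_nonneg_left hX0.le (by positivity) ?_
        linarith
      calc (X : ℝ) / π ≤ 4 * Real.log (4 * Z) * (X / Z) := h1
        _ ≤ 4 * ((8 * (c + 1)) ^ ε / ε * (X : ℝ) ^ ε) * ((X : ℝ) ^ (1 - s) / c) := by
            refine mul_le_mul (mul_le_mul_of_nonneg_left h2 (by norm_num)) h3 (by positivity)
              (by positivity)
        _ = K₁ * ((X : ℝ) ^ (1 - s) * (X : ℝ) ^ ε) := by rw [hK₁]; ring
        _ = K₁ * (X : ℝ) ^ (1 - s + ε) := by rw [Real.rpow_add hX0]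
    -- second term
    have hT2 : (Z : ℝ) ^ 2 ≤ 4 * c ^ 2 * (X : ℝ) ^ (1 - s + ε) := by
      have h1 : (Z : ℝ) ^ 2 ≤ (2 * (c * (X : ℝ) ^ s)) ^ 2 := pow_le_pow_left₀ hZ0.le hZle 2
      have h2 : (2 * (c * (X : ℝ) ^ s)) ^ 2 = 4 * c ^ 2 * (X : ℝ) ^ (s + s) := by
        rw [Real.rpow_add hX0]; ring
      have h3 : (X : ℝ) ^ (s + s) ≤ (X : ℝ) ^ (1 - s + ε) :=
        Real.rpow_le_rpow_of_exponent_le hXR (by linarith)
      rw [h2] at h1
      exact h1.trans (mul_le_mul_of_nonneg_left h3 (by positivity))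
    -- third term
    have hT3 : (∑ D ∈ (blk X).filter IsFund, (offZ p (prs Z) D : ℝ)) / (π : ℝ) ^ 2 ≤
        C₁ * (X : ℝ) ^ (1 - s + ε) := by
      rw [div_le_iff₀ (by positivity)]
      have h1 := sum_offZ_le p X (prs Z) (C₁ * (X : ℝ) ^ (1 - s + ε)) (fun q₁ hq₁ q₂ hq₂ hne => by
        rw [prs, Finset.mem_filter, Finset.mem_Ioc] at hq₁ hq₂
        exact hpair X Z q₁ q₂ hX (by omega) hZge hZle hq₁.2 hq₂.2 hne hq₁.1.1 hq₁.1.2
          hq₂.1.1 hq₂.1.2) (by positivity)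
      refine h1.trans (le_of_eq ?_)
      rw [← hπ]
      ring
    calc C * (X : ℝ) ^ (1 / 2 + ε) * (X / π + (Z : ℝ) ^ 2 +
            (∑ D ∈ (blk X).filter IsFund, (offZ p (prs Z) D : ℝ)) / (π : ℝ) ^ 2)
        ≤ C * (X : ℝ) ^ (1 / 2 + ε) * (K₁ * (X : ℝ) ^ (1 - s + ε) +
          4 * c ^ 2 * (X : ℝ) ^ (1 - s + ε) + C₁ * (X : ℝ) ^ (1 - s + ε)) := by
          refine mul_le_mul_of_nonneg_left ?_ (by positivity)
          linarith
      _ = C * (K₁ + 4 * c ^ 2 + C₁) *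
          ((X : ℝ) ^ (1 / 2 + ε) * (X : ℝ) ^ (1 - s + ε)) := by ring
      _ = C * (K₁ + 4 * c ^ 2 + C₁) * (X : ℝ) ^ (3 / 2 - s + 2 * ε) := by
          rw [← Real.rpow_add hX0]
          congr 2
          ring
      _ ≤ K * (X : ℝ) ^ (3 / 2 - s + 2 * ε) := by
          refine mul_le_mul_of_nonneg_right ?_ (by positivity)
          rw [hK]
          have : 0 ≤ C * ((X₀ : ℝ) + 1) := by positivity
          linarith

open Classical in
/-- **From pairs of primes to the average of the `p`-torsion, both signs.** -/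
theorem main_both (p : ℕ) (hp : Odd p) (s : ℝ) (hs0 : 0 < s) (hs : s ≤ 1 / 3)
    (hsp : 1 < s * p) (hpair : PAIR p s) (ε : ℝ) (hε : 0 < ε) :
    ∃ C : ℝ, 0 < C ∧ ∀ f : ℤ → ℕ,
      (∀ (K : Type) [Field K] [NumberField K], Module.finrank ℚ K = 2 →
        f (NumberField.discr K) =
          Nat.card {x : ClassGroup (NumberField.RingOfIntegers K) // x ^ p = 1}) →
      ∀ N : ℕ, ∑ D ∈ (Finset.Ioo (-(N : ℤ)) N).filter IsFund, (f D : ℝ) ≤
        C * (N : ℝ) ^ (3 / 2 - s + ε) := by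
  obtain ⟨K, hK, hb⟩ := block_pair p hp s hs0 hs hsp hpair (ε / 2) (by positivity)
  set t : ℝ := 3 / 2 - s + ε with ht
  have ht' : 3 / 2 - s + 2 * (ε / 2) = t := by rw [ht]; ring
  have ht1 : 1 ≤ t := by rw [ht]; linarith
  refine ⟨K * 2 ^ t, by positivity, fun f hf N => ?_⟩
  -- dyadic induction
  have hind : ∀ n : ℕ, ∑ D ∈ ((Finset.Icc (-(2 ^ n : ℤ)) (2 ^ n)).filter
      (fun D => (1 : ℤ) < |D|)).filter IsFund, (f D : ℝ) ≤ K * ((2 : ℝ) ^ n) ^ t := by
    intro n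
    induction n with
    | zero =>
      have h0 : (Finset.Icc (-(2 ^ 0 : ℤ)) (2 ^ 0)).filter (fun D => (1 : ℤ) < |D|) = ∅ := by
        rw [Finset.filter_eq_empty_iff]
        intro D hD
        rw [Finset.mem_Icc, pow_zero] at hD
        rw [not_lt, abs_le]
        exact hD
      rw [h0, Finset.filter_empty, Finset.sum_empty]
      positivity
    | succ n ih =>
      have hsub : ((Finset.Icc (-(2 ^ (n + 1) : ℤ)) (2 ^ (n + 1))).filter
          (fun D => (1 : ℤ) < |D|)).filter IsFund ⊆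
          ((Finset.Icc (-(2 ^ n : ℤ)) (2 ^ n)).filter (fun D => (1 : ℤ) < |D|)).filter IsFund ∪
          (blk (2 ^ n)).filter IsFund := by
        intro D hD
        rw [Finset.mem_filter, Finset.mem_filter, Finset.mem_Icc] at hD
        rw [Finset.mem_union, Finset.mem_filter, Finset.mem_filter, Finset.mem_filter,
          Finset.mem_Icc, mem_blk]
        by_cases h : |D| ≤ 2 ^ n
        · left
          exact ⟨⟨abs_le.1 h, hD.1.2⟩, hD.2⟩
        · right
          push Not at h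
          refine ⟨⟨by push_cast; exact h, ?_⟩, hD.2⟩
          have h2 : |D| ≤ 2 ^ (n + 1) := abs_le.2 hD.1.1
          push_cast
          rw [pow_succ] at h2
          linarith
      have h1 := hb f hf (2 ^ n) Nat.one_le_two_pow
      push_cast at h1
      rw [ht'] at h1
      have h3 : ((2 : ℝ) ^ (n + 1)) ^ t = 2 ^ t * ((2 : ℝ) ^ n) ^ t := by
        rw [pow_succ', Real.mul_rpow (by norm_num) (by positivity)]
      rw [h3]
      have h4 : (2 : ℝ) ≤ 2 ^ t := by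
        calc (2 : ℝ) = 2 ^ (1 : ℝ) := (Real.rpow_one _).symm
          _ ≤ 2 ^ t := Real.rpow_le_rpow_of_exponent_le (by norm_num) ht1
      have h5 : (0 : ℝ) ≤ K * ((2 : ℝ) ^ n) ^ t := by positivity
      calc _ ≤ ∑ D ∈ ((Finset.Icc (-(2 ^ n : ℤ)) (2 ^ n)).filter
              (fun D => (1 : ℤ) < |D|)).filter IsFund ∪ (blk (2 ^ n)).filter IsFund, (f D : ℝ) :=
            Finset.sum_le_sum_of_subset_of_nonneg hsub fun D _ _ => Nat.cast_nonneg _
        _ ≤ ∑ D ∈ ((Finset.Icc (-(2 ^ n : ℤ)) (2 ^ n)).filter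
              (fun D => (1 : ℤ) < |D|)).filter IsFund, (f D : ℝ) +
            ∑ D ∈ (blk (2 ^ n)).filter IsFund, (f D : ℝ) := by
            rw [← Finset.sum_union_inter]
            have : 0 ≤ ∑ D ∈ (((Finset.Icc (-(2 ^ n : ℤ)) (2 ^ n)).filter
              (fun D => (1 : ℤ) < |D|)).filter IsFund) ∩ ((blk (2 ^ n)).filter IsFund),
              (f D : ℝ) := Finset.sum_nonneg fun D _ => Nat.cast_nonneg _
            linarith
        _ ≤ 2 ^ t * (K * ((2 : ℝ) ^ n) ^ t) := by nlinarith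
        _ = _ := by ring
  rcases Nat.eq_zero_or_pos N with hN | hN
  · subst hN
    simp
    positivity
  have hNR : (1 : ℝ) ≤ N := by exact_mod_cast hN
  set n := Nat.clog 2 N with hn
  have hn1 : N ≤ 2 ^ n := Nat.le_pow_clog (by norm_num) N
  have hn2 : 2 ^ n ≤ 2 * N := by
    rcases Nat.eq_zero_or_pos n with h0 | h0
    · rw [h0, pow_zero]; omega
    · have h3 : 1 < N := by
        by_contra hcon
        have : N = 1 := by omega
        rw [hn, this, Nat.clog_one_right] at h0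
        omega
      have h4 := Nat.pow_pred_clog_lt_self (b := 2) (by norm_num) h3
      rw [← hn, Nat.pred_eq_sub_one] at h4
      have : 2 ^ n = 2 * 2 ^ (n - 1) := by
        rw [← pow_succ']; congr 1; omega
      omega
  have hsub : (Finset.Ioo (-(N : ℤ)) N).filter IsFund ⊆
      ((Finset.Icc (-(2 ^ n : ℤ)) (2 ^ n)).filter (fun D => (1 : ℤ) < |D|)).filter IsFund := by
    intro D hD
    rw [Finset.mem_filter, Finset.mem_Ioo] at hD
    rw [Finset.mem_filter, Finset.mem_filter, Finset.mem_Icc]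
    have h1 : (N : ℤ) ≤ 2 ^ n := by exact_mod_cast hn1
    refine ⟨⟨⟨by omega, by omega⟩, ?_⟩, hD.2⟩
    by_contra hcon
    rw [not_lt, abs_le] at hcon
    obtain ⟨h2, h3⟩ := hcon
    rcases hD.2 with ⟨h4, h5, _⟩ | ⟨m, h4, h5, _⟩
    · omega
    · omega
  calc ∑ D ∈ (Finset.Ioo (-(N : ℤ)) N).filter IsFund, (f D : ℝ)
      ≤ ∑ D ∈ ((Finset.Icc (-(2 ^ n : ℤ)) (2 ^ n)).filter
          (fun D => (1 : ℤ) < |D|)).filter IsFund, (f D : ℝ) :=
        Finset.sum_le_sum_of_subset_of_nonneg hsub fun D _ _ => Nat.cast_nonneg _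
    _ ≤ K * ((2 : ℝ) ^ n) ^ t := hind n
    _ ≤ K * (2 * N) ^ t := by
        refine mul_le_mul_of_nonneg_left ?_ hK.le
        refine Real.rpow_le_rpow (by positivity) ?_ (by linarith)
        exact_mod_cast hn2
    _ = K * 2 ^ t * (N : ℝ) ^ t := by
        rw [Real.mul_rpow (by norm_num) (by positivity)]; ring

end Pool.Agent.helper89.AM
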