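import Pool.Agent.helper89.AM.FieldBd
import Pool.Agent.helper47.RA.Block

set_option autoImplicit false

/-!
# The sum over a dyadic block, both signs
-/

namespace Pool.Agent.helper89.AM

open Finset NumberField Pool.Agent.helper47.RA

/-- the set of exceptional integers in an interval -/
noncomputable def ExcA (P : Finset ℕ) (a : ℤ) (X : ℕ) : Finset ℤ :=
  (Finset.Ioc a (a + X)).filter
    (fun D => 4 * (P.filter (fun q : ℕ => jacobiSym D q = 1)).card ≤ P.card ∧
      4 * (P.filter (fun q : ℕ => (q : ℤ) ∣ D)).card ≤ P.card)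

theorem card_excA_le (P : Finset ℕ) (a : ℤ) (X Z : ℕ)
    (hP : ∀ q ∈ P, q.Prime ∧ q ≠ 2 ∧ q ≤ 4 * Z) :
    (((ExcA P a X).card : ℕ) : ℤ) * (P.card : ℤ) ^ 2 ≤
      16 * ((P.card : ℤ) * X + (P.card : ℤ) ^ 2 * (4 * Z) ^ 2) := by
  classical
  let S : ℤ → ℤ := fun D => ∑ q ∈ P, jacobiSym D q
  have h1 : ∀ D ∈ ExcA P a X, (P.card : ℤ) ^ 2 ≤ 16 * S D ^ 2 := by
    intro D hD
    rw [ExcA, Finset.mem_filter] at hD
    obtain ⟨_, hs, hr⟩ := hD
    have h2 : S D = 2 * ((P.filter (fun q => jacobiSym D q = 1)).card : ℤ) +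
        ((P.filter (fun q : ℕ => (q : ℤ) ∣ D)).card : ℤ) - P.card := by
      have e1 : ((P.filter (fun q => jacobiSym D q = 1)).card : ℤ) =
          ∑ q ∈ P, if jacobiSym D q = 1 then (1 : ℤ) else 0 := by
        rw [Finset.card_filter]; push_cast; rfl
      have e2 : ((P.filter (fun q : ℕ => (q : ℤ) ∣ D)).card : ℤ) =
          ∑ q ∈ P, if (q : ℤ) ∣ D then (1 : ℤ) else 0 := by
        rw [Finset.card_filter]; push_cast; rfl
      have e3 : (P.card : ℤ) = ∑ _q ∈ P, (1 : ℤ) := by simp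
      rw [e1, e2, e3, Finset.mul_sum, ← Finset.sum_add_distrib, ← Finset.sum_sub_distrib]
      refine Finset.sum_congr rfl fun q hq => ?_
      have hqp := (hP q hq).1
      have : Fact q.Prime := ⟨hqp⟩
      have h0 : jacobiSym D q = 0 ↔ (q : ℤ) ∣ D := jacobi_zero_iff hqp D
      rcases jacobiSym.trichotomy D q with h | h | h
      · have h' := h0.1 h
        rw [h, if_neg (by norm_num), if_pos h']; norm_num
      · have h' : ¬ (q : ℤ) ∣ D := fun h3 => by rw [h0.2 h3] at h; norm_num at h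
        rw [h, if_pos rfl, if_neg h']; norm_num
      · have h' : ¬ (q : ℤ) ∣ D := fun h3 => by rw [h0.2 h3] at h; norm_num at h
        rw [h, if_neg (by norm_num), if_neg h']; norm_num
    have h3 : 4 * S D ≤ -(P.card : ℤ) := by
      rw [h2]
      have hs' : 4 * ((P.filter (fun q => jacobiSym D q = 1)).card : ℤ) ≤ P.card := by
        exact_mod_cast hs
      have hr' : 4 * ((P.filter (fun q : ℕ => (q : ℤ) ∣ D)).card : ℤ) ≤ P.card := by
        exact_mod_cast hr
      linarith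
    have h4 : (0 : ℤ) ≤ P.card := by positivity
    nlinarith
  have h2 : ∑ D ∈ Finset.Ioc a (a + X), S D ^ 2 ≤
      (P.card : ℤ) * X + (P.card : ℤ) ^ 2 * (4 * Z) ^ 2 := by
    have e1 : ∀ D, S D ^ 2 = ∑ q ∈ P, ∑ q' ∈ P, jacobiSym D q * jacobiSym D q' := by
      intro D
      rw [sq, Finset.sum_mul_sum]
    simp_rw [e1]
    rw [Finset.sum_comm]
    simp_rw [Finset.sum_comm (s := Finset.Ioc a (a + X)) (t := P)]
    have e2 : ∀ q ∈ P, ∀ q' ∈ P, ∑ D ∈ Finset.Ioc a (a + X), jacobiSym D q * jacobiSym D q' ≤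
        (if q = q' then (X : ℤ) else 0) + (4 * Z) ^ 2 := by
      intro q hq q' hq'
      obtain ⟨p1, p2, p3⟩ := hP q hq
      obtain ⟨p1', p2', p3'⟩ := hP q' hq'
      split_ifs with h
      · have : ∑ D ∈ Finset.Ioc a (a + X), jacobiSym D q * jacobiSym D q' ≤
            ∑ _D ∈ Finset.Ioc a (a + X), (1 : ℤ) := by
          refine Finset.sum_le_sum fun D _ => ?_
          rw [← h]
          rcases jacobiSym.trichotomy D q with h | h | h <;> rw [h] <;> norm_num
        refine this.trans ?_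
        rw [Finset.sum_const, Int.card_Ioc, nsmul_eq_mul, mul_one]
        have : (((a + X - a : ℤ)).toNat : ℤ) = X := by
          rw [Int.toNat_of_nonneg] <;> omega
        rw [this]
        nlinarith [sq_nonneg (4 * (Z : ℤ))]
      · have h3 := abs_sum_jacobi_le p1 p1' p2 h a X
        refine (le_abs_self _).trans (h3.trans ?_)
        rw [zero_add, sq]
        have h5 : (q : ℤ) ≤ 4 * Z := by exact_mod_cast p3
        have h6 : (q' : ℤ) ≤ 4 * Z := by exact_mod_cast p3'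
        exact mul_le_mul h5 h6 (by positivity) (by positivity)
    calc ∑ q ∈ P, ∑ q' ∈ P, ∑ D ∈ Finset.Ioc a (a + X), jacobiSym D q * jacobiSym D q'
        ≤ ∑ q ∈ P, ∑ q' ∈ P, ((if q = q' then (X : ℤ) else 0) + (4 * Z) ^ 2) :=
          Finset.sum_le_sum fun q hq => Finset.sum_le_sum fun q' hq' => e2 q hq q' hq'
      _ = ∑ q ∈ P, ((X : ℤ) + P.card * (4 * Z) ^ 2) := by
          refine Finset.sum_congr rfl fun q hq => ?_
          rw [Finset.sum_add_distrib, Finset.sum_ite_eq, if_pos hq, Finset.sum_const,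
            nsmul_eq_mul]
      _ = _ := by
          rw [Finset.sum_const, nsmul_eq_mul]
          ring
  calc (((ExcA P a X).card : ℕ) : ℤ) * (P.card : ℤ) ^ 2 =
        ∑ _D ∈ ExcA P a X, (P.card : ℤ) ^ 2 := by
        rw [Finset.sum_const, nsmul_eq_mul]
    _ ≤ ∑ D ∈ ExcA P a X, 16 * S D ^ 2 := Finset.sum_le_sum h1
    _ ≤ ∑ D ∈ Finset.Ioc a (a + X), 16 * S D ^ 2 := by
        refine Finset.sum_le_sum_of_subset_of_nonneg (Finset.filter_subset _ _) ?_
        intro D _ _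
        positivity
    _ = 16 * ∑ D ∈ Finset.Ioc a (a + X), S D ^ 2 := by rw [Finset.mul_sum]
    _ ≤ _ := by linarith

/-- few primes of `P` divide `D` -/
lemma card_ram_lt' (p Z X : ℕ) (P : Finset ℕ) (hP : ∀ q ∈ P, q.Prime ∧ Z ≤ q) (hZ : 1 ≤ Z)
    (hZp : 2 * X < Z ^ p) (D : ℤ) (hD : D ≠ 0) (hDX : |D| ≤ 2 * X) :
    (P.filter (fun q : ℕ => (q : ℤ) ∣ D)).card < p := by
  have h1 := card_ram_lt p Z X P hP hZ hZp |D| (abs_pos.2 hD) hDX
  have h2 : (P.filter (fun q : ℕ => (q : ℤ) ∣ D)) = (P.filter (fun q : ℕ => (q : ℤ) ∣ |D|)) := by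
    apply Finset.filter_congr
    intro q _
    rw [dvd_abs]
  rw [h2]
  exact h1

lemma mem_blk {X : ℕ} {D : ℤ} : D ∈ blk X ↔ (X : ℤ) < |D| ∧ |D| ≤ 2 * X := by
  rw [blk, Finset.mem_filter, Finset.mem_Icc, abs_le]
  tauto

lemma blk_subset (X : ℕ) : blk X ⊆
    Finset.Ioc (X : ℤ) (X + X) ∪ Finset.Ioc (-(2 * X : ℤ) - 1) (-(2 * X : ℤ) - 1 + X) := by
  intro D hD
  rw [mem_blk] at hD
  rw [Finset.mem_union, Finset.mem_Ioc, Finset.mem_Ioc]
  rcases abs_cases D with ⟨h1, h2⟩ | ⟨h1, h2⟩ <;> rw [h1] at hD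
  · left; omega
  · right; omega

lemma card_blk_le (X : ℕ) : (blk X).card ≤ 2 * X := by
  refine (Finset.card_le_card (blk_subset X)).trans ((Finset.card_union_le _ _).trans ?_)
  rw [Int.card_Ioc, Int.card_Ioc]
  omega

open Classical in
/-- the block sum in terms of the parameter `Z` -/
theorem block_both (ε : ℝ) (hε : 0 < ε) :
    ∃ C : ℝ, 1 ≤ C ∧ ∀ (p : ℕ) (f : ℤ → ℕ), Odd p →
      (∀ (K : Type) [Field K] [NumberField K], Module.finrank ℚ K = 2 →
        f (NumberField.discr K) =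
          Nat.card {x : ClassGroup (NumberField.RingOfIntegers K) // x ^ p = 1}) →
      ∀ X : ℕ, 1 ≤ X →
      (∑ D ∈ (blk X).filter IsFund, (f D : ℝ) ≤ C * (X : ℝ) ^ (1 / 2 + ε) * X) ∧
      ∀ Z : ℕ, 2 ≤ Z → 2 * X < Z ^ p → 4 * p ≤ (prs Z).card →
      ∑ D ∈ (blk X).filter IsFund, (f D : ℝ) ≤
        C * (X : ℝ) ^ (1 / 2 + ε) *
          (X / (prs Z).card + (Z : ℝ) ^ 2 +
            (∑ D ∈ (blk X).filter IsFund, (offZ p (prs Z) D : ℝ)) / ((prs Z).card : ℝ) ^ 2) := by
  obtain ⟨C₀, hC₀, hbd⟩ := field_bound ε hε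
  refine ⟨512 * C₀, by linarith, ?_⟩
  intro p f hp hf X hX
  have hXR : (1 : ℝ) ≤ X := by exact_mod_cast hX
  have hXpos : (0 : ℝ) < X := by linarith
  have hC0 : 0 < C₀ := by linarith
  set U : ℝ := C₀ * (X : ℝ) ^ (1 / 2 + ε) with hU
  have hU0 : 0 ≤ U := by positivity
  have hU1 : 512 * C₀ * (X : ℝ) ^ (1 / 2 + ε) = 512 * U := by rw [hU]; ring
  rw [hU1]
  have htriv : ∀ D ∈ (blk X).filter IsFund, (f D : ℝ) ≤ U := by
    intro D hD
    rw [Finset.mem_filter, mem_blk] at hD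
    exact (hbd p f hp hf X D hX hD.2 hD.1.2).1
  have hcardB : (((blk X).card : ℕ) : ℝ) ≤ 2 * X := by exact_mod_cast card_blk_le X
  have hcardF : ((((blk X).filter IsFund).card : ℕ) : ℝ) ≤ 2 * X := by
    refine le_trans ?_ hcardB
    exact_mod_cast Finset.card_filter_le _ _
  constructor
  · calc ∑ D ∈ (blk X).filter IsFund, (f D : ℝ)
        ≤ ∑ _D ∈ (blk X).filter IsFund, U := Finset.sum_le_sum htriv
      _ = (((blk X).filter IsFund).card : ℝ) * U := by
          rw [Finset.sum_const, nsmul_eq_mul]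
      _ ≤ (2 * X) * U := mul_le_mul_of_nonneg_right hcardF hU0
      _ ≤ 512 * U * X := by nlinarith [mul_nonneg hU0 hXpos.le]
  intro Z hZ hZp hπ
  set P := prs Z with hPdef
  have hP : ∀ q ∈ P, q.Prime ∧ Z < q ∧ q ≤ 4 * Z := by
    intro q hq
    rw [hPdef, prs, Finset.mem_filter, Finset.mem_Ioc] at hq
    exact ⟨hq.2, hq.1.1, hq.1.2⟩
  have hpi : (0 : ℝ) < P.card := by
    have : 0 < P.card := by
      have := hp.pos
      omega
    exact_mod_cast this
  set E : Finset ℤ := ExcA P (X : ℤ) X ∪ ExcA P (-(2 * X : ℤ) - 1) X with hE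
  -- pointwise bound
  have hpt : ∀ D ∈ (blk X).filter IsFund, (f D : ℝ) ≤
      U * ((if D ∈ E then 1 else 0) + (4 / P.card + 16 * offZ p P D / P.card ^ 2)) := by
    intro D hD
    have hD' := hD
    rw [Finset.mem_filter] at hD
    have hDb := hD.1
    rw [mem_blk] at hD
    have hnn : (0 : ℝ) ≤ 4 / P.card + 16 * offZ p P D / P.card ^ 2 := by positivity
    split_ifs with h
    · refine (htriv D hD').trans ?_
      nlinarith
    · have hlarge : P.card < 4 * (P.filter (fun q => jacobiSym D q = 1)).card := by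
        by_contra hcon
        push Not at hcon
        apply h
        have hD0 : D ≠ 0 := by
          intro h0
          rw [h0, abs_zero] at hD
          omega
        have h1 := card_ram_lt' p Z X P (fun q hq => ⟨(hP q hq).1, (hP q hq).2.1.le⟩)
            (by omega) hZp D hD0 hD.1.2
        have h3 : 4 * (P.filter (fun q : ℕ => (q : ℤ) ∣ D)).card ≤ P.card := by omega
        have h4 := blk_subset X hDb
        rw [Finset.mem_union] at h4
        rw [hE, Finset.mem_union]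
        rcases h4 with h4 | h4
        · left
          rw [ExcA, Finset.mem_filter]
          exact ⟨h4, hcon, h3⟩
        · right
          rw [ExcA, Finset.mem_filter]
          exact ⟨h4, hcon, h3⟩
      have h1 := (hbd p f hp hf X D hX hD.2 hD.1.2).2 P
        (fun q hq => ⟨(hP q hq).1, by have := (hP q hq).2.1; omega⟩) hlarge
      refine h1.trans ?_
      rw [zero_add]
  have hexc : ∀ a : ℤ, (((ExcA P a X).card : ℕ) : ℝ) ≤ 16 * X / P.card + 256 * (Z : ℝ) ^ 2 := by
    intro a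
    have h1 := card_excA_le P a X Z (fun q hq => ⟨(hP q hq).1, by
      have := (hP q hq).2.1; omega, (hP q hq).2.2⟩)
    have h2 : (((ExcA P a X).card : ℕ) : ℝ) * (P.card : ℝ) ^ 2 ≤
        16 * ((P.card : ℝ) * X + (P.card : ℝ) ^ 2 * (4 * Z) ^ 2) := by exact_mod_cast h1
    have h3 : 16 * ((P.card : ℝ) * X + (P.card : ℝ) ^ 2 * (4 * Z) ^ 2) =
        (16 * X / P.card + 256 * (Z : ℝ) ^ 2) * (P.card : ℝ) ^ 2 := by
      field_simp
      ring
    rw [h3] at h2
    exact le_of_mul_le_mul_right h2 (by positivity)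
  have hEcard : ((E.card : ℕ) : ℝ) ≤ 32 * X / P.card + 512 * (Z : ℝ) ^ 2 := by
    have h1 : ((E.card : ℕ) : ℝ) ≤ ((ExcA P (X : ℤ) X).card : ℝ) +
        ((ExcA P (-(2 * X : ℤ) - 1) X).card : ℝ) := by
      exact_mod_cast Finset.card_union_le _ _
    have h2 := hexc (X : ℤ)
    have h3 := hexc (-(2 * X : ℤ) - 1)
    have h4 : 32 * (X : ℝ) / P.card + 512 * (Z : ℝ) ^ 2 =
        (16 * X / P.card + 256 * (Z : ℝ) ^ 2) + (16 * X / P.card + 256 * (Z : ℝ) ^ 2) := by ring
    rw [h4]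
    linarith
  have hsumExc : ∑ D ∈ (blk X).filter IsFund, (if D ∈ E then (1 : ℝ) else 0) ≤
      ((E.card : ℕ) : ℝ) := by
    rw [← Finset.sum_filter, Finset.sum_const, nsmul_eq_mul, mul_one]
    have : (((blk X).filter IsFund).filter (fun D => D ∈ E)).card ≤ E.card :=
      Finset.card_le_card fun D hD => (Finset.mem_filter.1 hD).2
    exact_mod_cast this
  set V : ℝ := ∑ D ∈ (blk X).filter IsFund, (offZ p P D : ℝ) with hV
  have hV0 : 0 ≤ V := Finset.sum_nonneg fun D _ => Nat.cast_nonneg _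
  calc ∑ D ∈ (blk X).filter IsFund, (f D : ℝ)
      ≤ ∑ D ∈ (blk X).filter IsFund,
        U * ((if D ∈ E then 1 else 0) + (4 / P.card + 16 * offZ p P D / P.card ^ 2)) :=
        Finset.sum_le_sum hpt
    _ = U * (∑ D ∈ (blk X).filter IsFund, (if D ∈ E then (1 : ℝ) else 0) +
        ((((blk X).filter IsFund).card : ℝ) * (4 / P.card) + 16 / (P.card : ℝ) ^ 2 * V)) := by
        rw [← Finset.mul_sum, Finset.sum_add_distrib, Finset.sum_add_distrib, Finset.sum_const,
          nsmul_eq_mul]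
        congr 3
        rw [hV, Finset.mul_sum]
        refine Finset.sum_congr rfl fun D _ => ?_
        ring
    _ ≤ U * ((32 * X / P.card + 512 * (Z : ℝ) ^ 2) + ((2 * X) * (4 / P.card) +
        16 / (P.card : ℝ) ^ 2 * V)) := by
        refine mul_le_mul_of_nonneg_left ?_ hU0
        refine add_le_add (hsumExc.trans hEcard) (add_le_add ?_ le_rfl)
        exact mul_le_mul_of_nonneg_right hcardF (by positivity)
    _ = U * (40 * (X / P.card) + 512 * (Z : ℝ) ^ 2 + 16 * (V / (P.card : ℝ) ^ 2)) := by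
        ring
    _ ≤ U * (512 * (X / P.card + (Z : ℝ) ^ 2 + V / (P.card : ℝ) ^ 2)) := by
        refine mul_le_mul_of_nonneg_left ?_ hU0
        have h1 : 0 ≤ (X : ℝ) / P.card := by positivity
        have h2 : 0 ≤ V / (P.card : ℝ) ^ 2 := by positivity
        nlinarith
    _ = 512 * U * (X / P.card + (Z : ℝ) ^ 2 + V / (P.card : ℝ) ^ 2) := by ring

end Pool.Agent.helper89.AM
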