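import Pool.Agent.helper89.AM.Imag

set_option autoImplicit false

/-!
# Collisions in an imaginary quadratic field
-/

namespace Pool.Agent.helper89.AM

open NumberField Pool.Agent.helper47.RA Pool.Agent.helper3.FT

variable {K : Type} [Field K] [NumberField K] (Q : QF K)

/-- the square root of the discriminant -/
def dl : 𝓞 K := 2 * Q.ω - Q.t

lemma dl_sq : dl Q * dl Q = (Q.D : 𝓞 K) := by
  have h1 := Q.hω
  have ht2 : Q.t ^ 2 = Q.t := by rcases Q.ht with h | h <;> rw [h] <;> norm_num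
  have h2 : ((Q.t ^ 2 : ℤ) : 𝓞 K) = (Q.t : 𝓞 K) := by rw [ht2]
  have h3 : (Q.D : 𝓞 K) = (Q.t : 𝓞 K) + 4 * Q.k := by
    have := congrArg (fun z : ℤ => (z : 𝓞 K)) Q.hk
    push_cast at this
    exact this
  rw [h3, dl]
  push_cast at h2
  linear_combination 4 * h1 + h2

/-- the ideal above `q` -/
def qJ (q : ℕ) (r : ℤ) : Ideal (𝓞 K) := Ideal.span {(q : 𝓞 K), (r : 𝓞 K) - dl Q}

/-- the conjugate ideal -/
def qJ' (q : ℕ) (r : ℤ) : Ideal (𝓞 K) := Ideal.span {(q : 𝓞 K), (r : 𝓞 K) + dl Q}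

variable {Q}

lemma cop_aux {q : ℕ} (hq : q.Prime) (hq2 : q ≠ 2) {D r : ℤ} (hr : (q : ℤ) ∣ r ^ 2 - D)
    (hqD : ¬ (q : ℤ) ∣ D) : IsCoprime (q : ℤ) (2 * r) := by
  have hp : Prime (q : ℤ) := Nat.prime_iff_prime_int.1 hq
  rw [Prime.coprime_iff_not_dvd hp]
  intro h
  rcases hp.dvd_or_dvd h with h1 | h1
  · have h2 : q ∣ 2 := by exact_mod_cast h1
    exact hq2 ((Nat.prime_dvd_prime_iff_eq hq Nat.prime_two).1 h2)
  · apply hqD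
    have h2 : (q : ℤ) ∣ r ^ 2 := dvd_pow h1 (by norm_num)
    have h3 := dvd_sub h2 hr
    have h4 : r ^ 2 - (r ^ 2 - D) = D := by ring
    rwa [h4] at h3

lemma mul_qJ {q : ℕ} (hq : q.Prime) (hq2 : q ≠ 2) {r : ℤ} (hr : (q : ℤ) ∣ r ^ 2 - Q.D)
    (hqD : ¬ (q : ℤ) ∣ Q.D) : qJ Q q r * qJ' Q q r = Ideal.span {(q : 𝓞 K)} := by
  obtain ⟨u, v, huv⟩ := cop_aux hq hq2 hr hqD
  obtain ⟨m, hm⟩ := hr
  have hm' : (r : 𝓞 K) ^ 2 - Q.D = q * m := by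
    have := congrArg (fun z : ℤ => (z : 𝓞 K)) hm
    push_cast at this
    exact this
  have huv' : (u : 𝓞 K) * q + v * (2 * r) = 1 := by
    have := congrArg (fun z : ℤ => (z : 𝓞 K)) huv
    push_cast at this
    exact this
  have hδ := dl_sq Q
  apply le_antisymm
  · rw [qJ, qJ', Ideal.span_mul_span', Ideal.span_le]
    rintro z hz
    rw [Set.mem_mul] at hz
    obtain ⟨a, ha, b, hb, rfl⟩ := hz
    rw [SetLike.mem_coe, Ideal.mem_span_singleton]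
    rcases ha with rfl | rfl
    · exact dvd_mul_right _ _
    · rcases hb with rfl | rfl
      · exact dvd_mul_left _ _
      · refine ⟨m, ?_⟩
        linear_combination hm' - hδ
  · rw [Ideal.span_singleton_le_iff_mem]
    have e1 : (q : 𝓞 K) ∈ qJ Q q r := Ideal.subset_span (by simp)
    have e2 : (q : 𝓞 K) ∈ qJ' Q q r := Ideal.subset_span (by simp)
    have e3 : (r : 𝓞 K) - dl Q ∈ qJ Q q r := Ideal.subset_span (by simp)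
    have e4 : (r : 𝓞 K) + dl Q ∈ qJ' Q q r := Ideal.subset_span (by simp)
    have e5 : (q : 𝓞 K) = u * (q * q) + v * (q * (r + dl Q) + (r - dl Q) * q) := by
      linear_combination -(q : 𝓞 K) * huv'
    have e6 : (u : 𝓞 K) * (q * q) + v * (q * (r + dl Q) + (r - dl Q) * q) ∈
        qJ Q q r * qJ' Q q r :=
      Ideal.add_mem _ (Ideal.mul_mem_left _ _ (Ideal.mul_mem_mul e1 e2))
        (Ideal.mul_mem_left _ _ (Ideal.add_mem _ (Ideal.mul_mem_mul e1 e4)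
          (Ideal.mul_mem_mul e3 e2)))
    rwa [← e5] at e6

lemma coprime_qJ {q : ℕ} (hq : q.Prime) (hq2 : q ≠ 2) {r : ℤ} (hr : (q : ℤ) ∣ r ^ 2 - Q.D)
    (hqD : ¬ (q : ℤ) ∣ Q.D) : IsCoprime (qJ Q q r) (qJ' Q q r) := by
  obtain ⟨u, v, huv⟩ := cop_aux hq hq2 hr hqD
  have huv' : (u : 𝓞 K) * q + v * (2 * r) = 1 := by
    have := congrArg (fun z : ℤ => (z : 𝓞 K)) huv
    push_cast at this
    exact this
  rw [Ideal.isCoprime_iff_exists]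
  have e1 : (q : 𝓞 K) ∈ qJ Q q r := Ideal.subset_span (by simp)
  have e3 : (r : 𝓞 K) - dl Q ∈ qJ Q q r := Ideal.subset_span (by simp)
  have e4 : (r : 𝓞 K) + dl Q ∈ qJ' Q q r := Ideal.subset_span (by simp)
  refine ⟨u * q + v * (r - dl Q), Ideal.add_mem _ (Ideal.mul_mem_left _ _ e1)
    (Ideal.mul_mem_left _ _ e3), v * (r + dl Q), Ideal.mul_mem_left _ _ e4, ?_⟩
  linear_combination huv'

/-- divisibility by an integer in terms of coordinates -/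
lemma dvd_coords {n x y : ℤ} (h : (n : 𝓞 K) ∣ (x : 𝓞 K) + y * Q.ω) : n ∣ x ∧ n ∣ y := by
  obtain ⟨w, hw⟩ := h
  obtain ⟨a, b, rfl⟩ := Q.hspan w
  have h1 : (((x - n * a : ℤ)) : 𝓞 K) + ((y - n * b : ℤ) : 𝓞 K) * Q.ω = 0 := by
    push_cast
    linear_combination hw
  have h2 := lin_indep Q.hD Q.ht Q.hk Q.hω h1
  exact ⟨⟨a, by linarith [h2.1]⟩, ⟨b, by linarith [h2.2]⟩⟩

lemma qJ_ne_top {q : ℕ} (hq : q.Prime) (hq2 : q ≠ 2) {r : ℤ} (hr : (q : ℤ) ∣ r ^ 2 - Q.D)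
    (hqD : ¬ (q : ℤ) ∣ Q.D) : qJ Q q r ≠ ⊤ := by
  intro h
  have h1 := mul_qJ hq hq2 hr hqD
  rw [h, Ideal.top_mul] at h1
  have e4 : (r : 𝓞 K) + dl Q ∈ qJ' Q q r := Ideal.subset_span (by simp)
  rw [h1, Ideal.mem_span_singleton] at e4
  have e5 : (((q : ℤ)) : 𝓞 K) ∣ ((r - Q.t : ℤ) : 𝓞 K) + ((2 : ℤ) : 𝓞 K) * Q.ω := by
    have : ((r - Q.t : ℤ) : 𝓞 K) + ((2 : ℤ) : 𝓞 K) * Q.ω = r + dl Q := by
      rw [dl]; push_cast; ring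
    rw [this]
    exact_mod_cast e4
  have e6 : q ∣ 2 := by exact_mod_cast (dvd_coords e5).2
  exact hq2 ((Nat.prime_dvd_prime_iff_eq hq Nat.prime_two).1 e6)

lemma qJ'_ne_top {q : ℕ} (hq : q.Prime) (hq2 : q ≠ 2) {r : ℤ} (hr : (q : ℤ) ∣ r ^ 2 - Q.D)
    (hqD : ¬ (q : ℤ) ∣ Q.D) : qJ' Q q r ≠ ⊤ := by
  intro h
  have h1 := mul_qJ hq hq2 hr hqD
  rw [h, Ideal.mul_top] at h1
  have e4 : (r : 𝓞 K) - dl Q ∈ qJ Q q r := Ideal.subset_span (by simp)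
  rw [h1, Ideal.mem_span_singleton] at e4
  have e5 : (((q : ℤ)) : 𝓞 K) ∣ ((r + Q.t : ℤ) : 𝓞 K) + ((-2 : ℤ) : 𝓞 K) * Q.ω := by
    have : ((r + Q.t : ℤ) : 𝓞 K) + ((-2 : ℤ) : 𝓞 K) * Q.ω = r - dl Q := by
      rw [dl]; push_cast; ring
    rw [this]
    exact_mod_cast e4
  have e6 : q ∣ 2 := by
    have := (dvd_coords e5).2
    rw [dvd_neg] at this
    exact_mod_cast this
  exact hq2 ((Nat.prime_dvd_prime_iff_eq hq Nat.prime_two).1 e6)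

lemma absNorm_qJ {q : ℕ} (hq : q.Prime) (hq2 : q ≠ 2) {r : ℤ} (hr : (q : ℤ) ∣ r ^ 2 - Q.D)
    (hqD : ¬ (q : ℤ) ∣ Q.D) :
    Ideal.absNorm (qJ Q q r) = q ∧ Ideal.absNorm (qJ' Q q r) = q := by
  have h1 := congrArg Ideal.absNorm (mul_qJ hq hq2 hr hqD)
  rw [map_mul] at h1
  have h2 : Ideal.absNorm (Ideal.span {(q : 𝓞 K)}) = q ^ 2 := by
    have := Q.hnorm ((q : ℤ) : 𝓞 K)
    rw [Q.v₁_int, Q.v₂_int] at this
    simp only [Int.cast_natCast, Nat.abs_cast] at this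
    rw [← sq] at this
    exact_mod_cast this
  rw [h2] at h1
  refine (Nat.Prime.mul_eq_prime_sq_iff hq ?_ ?_).1 h1
  · rw [Ne, Ideal.absNorm_eq_one_iff]
    exact qJ_ne_top hq hq2 hr hqD
  · rw [Ne, Ideal.absNorm_eq_one_iff]
    exact qJ'_ne_top hq hq2 hr hqD

variable (Q) in
/-- collisions give solutions of `x² = D y² + 4 (q₁ q₂)^p` -/
theorem coll_eq_im (hneg : Q.D < 0) {q₁ q₂ : ℕ} (hq₁ : q₁.Prime) (hq₁2 : q₁ ≠ 2) {r₁ : ℤ}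
    (hr₁ : (q₁ : ℤ) ∣ r₁ ^ 2 - Q.D) (hqD₁ : ¬ (q₁ : ℤ) ∣ Q.D)
    (hq₂ : q₂.Prime) (hq₂2 : q₂ ≠ 2) {r₂ : ℤ}
    (hr₂ : (q₂ : ℤ) ∣ r₂ ^ 2 - Q.D) (hqD₂ : ¬ (q₂ : ℤ) ∣ Q.D) (hne : q₁ ≠ q₂)
    {p : ℕ} (hp : Odd p) (h : ColI p (qJ Q q₁ r₁) (qJ Q q₂ r₂)) :
    ∃ x y : ℤ, y ≠ 0 ∧ x ^ 2 = Q.D * y ^ 2 + 4 * (((q₁ * q₂) ^ p : ℕ) : ℤ) ∧
      ∀ h : ℕ, (h : ℤ) ∣ y → (h : ℤ) ∣ 2 * x → h ≤ 4 := by
  obtain ⟨β₁, β₂, hβ₁, hβ₂, hmul⟩ := h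
  set A : ℕ := (q₁ * q₂) ^ p with hA
  have hspan2 : Ideal.span {β₂} ≠ ⊥ := by
    rw [Ne, Ideal.span_singleton_eq_bot]; exact hβ₂
  -- the element
  have hmul2 : Ideal.span {β₁ * (q₂ : 𝓞 K) ^ p} =
      Ideal.span {β₂} * (qJ Q q₁ r₁ ^ p * qJ' Q q₂ r₂ ^ p) := by
    calc Ideal.span {β₁ * (q₂ : 𝓞 K) ^ p}
        = Ideal.span {β₁} * Ideal.span {(q₂ : 𝓞 K)} ^ p := by
          rw [Ideal.span_singleton_pow, Ideal.span_singleton_mul_span_singleton]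
      _ = Ideal.span {β₁} * (qJ Q q₂ r₂ * qJ' Q q₂ r₂) ^ p := by
          rw [mul_qJ hq₂ hq₂2 hr₂ hqD₂]
      _ = (Ideal.span {β₁} * qJ Q q₂ r₂ ^ p) * qJ' Q q₂ r₂ ^ p := by rw [mul_pow, mul_assoc]
      _ = _ := by rw [hmul, mul_assoc]
  have hdv : β₂ ∣ β₁ * (q₂ : 𝓞 K) ^ p := by
    have h1 : Ideal.span {β₂} ∣ Ideal.span {β₁ * (q₂ : 𝓞 K) ^ p} := Dvd.intro _ hmul2.symm
    rw [Ideal.dvd_span_singleton, Ideal.mem_span_singleton] at h1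
    exact h1
  obtain ⟨α, hα⟩ := hdv
  have hαI : Ideal.span {α} = qJ Q q₁ r₁ ^ p * qJ' Q q₂ r₂ ^ p := by
    rw [hα, ← Ideal.span_singleton_mul_span_singleton] at hmul2
    exact mul_left_cancel₀ hspan2 hmul2
  have hnα : Q.v₁ α * Q.v₂ α = (A : ℝ) := by
    rw [← Q.hnorm, hαI, map_mul, map_pow, map_pow, (absNorm_qJ hq₁ hq₁2 hr₁ hqD₁).1,
      (absNorm_qJ hq₂ hq₂2 hr₂ hqD₂).2, ← mul_pow]
  -- coordinates
  obtain ⟨x', y', hxy⟩ := Q.hspan α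
  have hcj : Q.cj α = x' + y' * (Q.t - Q.ω) := by
    rw [hxy, map_add, map_mul, Q.cj_ω, map_intCast, map_intCast]
  have hN : α * Q.cj α = ((x' ^ 2 + Q.t * x' * y' - Q.k * y' ^ 2 : ℤ) : 𝓞 K) := by
    rw [hcj, hxy]
    push_cast
    linear_combination (-(y' : 𝓞 K) ^ 2) * Q.hω
  have hNA : |((x' ^ 2 + Q.t * x' * y' - Q.k * y' ^ 2 : ℤ) : ℝ)| = (A : ℝ) := by
    rw [← hnα, ← Q.v₁_int, ← hN, Q.v₁_mul, Q.v₁_cj]
  set x : ℤ := 2 * x' + Q.t * y' with hx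
  have ht2 : Q.t ^ 2 = Q.t := by rcases Q.ht with h | h <;> rw [h] <;> norm_num
  have hfour : 4 * (x' ^ 2 + Q.t * x' * y' - Q.k * y' ^ 2) = x ^ 2 - Q.D * y' ^ 2 := by
    rw [hx, Q.hk]
    linear_combination (-(y' ^ 2)) * ht2
  have hnn : 0 ≤ x' ^ 2 + Q.t * x' * y' - Q.k * y' ^ 2 := by
    have h1 : 0 ≤ x ^ 2 - Q.D * y' ^ 2 := by nlinarith [sq_nonneg x, sq_nonneg y']
    linarith
  have hNA2 : x' ^ 2 + Q.t * x' * y' - Q.k * y' ^ 2 = (A : ℤ) := by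
    rw [abs_of_nonneg (by exact_mod_cast hnn)] at hNA
    exact_mod_cast hNA
  have heq : x ^ 2 = Q.D * y' ^ 2 + 4 * (A : ℤ) := by linarith
  have hy0 : y' ≠ 0 := by
    intro h0
    rw [h0] at heq hx
    have h1 : x = 2 * x' := by rw [hx]; ring
    rw [h1] at heq
    have h2 : x'.natAbs ^ 2 = A := by
      have h3 : x' ^ 2 = (A : ℤ) := by linarith
      have h4 : ((x'.natAbs ^ 2 : ℕ) : ℤ) = (A : ℤ) := by
        push_cast; rw [sq_abs]; exact h3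
      exact_mod_cast h4
    exact RQ.not_sq_of_odd hq₁ hq₂ hne hp _ h2
  refine ⟨x, y', hy0, heq, ?_⟩
  -- common divisors
  have hoddA : Odd A := by
    rw [hA]
    exact Odd.pow ((hq₁.odd_of_ne_two hq₁2).mul (hq₂.odd_of_ne_two hq₂2))
  have hodd : ∀ ℓ : ℕ, ℓ.Prime → Odd ℓ → (ℓ : ℤ) ∣ x → (ℓ : ℤ) ∣ y' → False := by
    intro ℓ hℓ hℓo hℓx hℓy
    have hp' : Prime (ℓ : ℤ) := Nat.prime_iff_prime_int.1 hℓ
    have hℓ2 : ¬ (ℓ : ℤ) ∣ 2 := by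
      intro h1
      have h2 : ℓ ∣ 2 := by exact_mod_cast h1
      have := (Nat.prime_dvd_prime_iff_eq hℓ Nat.prime_two).1 h2
      rw [this] at hℓo
      exact absurd hℓo (by decide)
    have hℓx' : (ℓ : ℤ) ∣ x' := by
      have h1 : (ℓ : ℤ) ∣ 2 * x' := by
        have h2 := dvd_sub hℓx (hℓy.mul_left Q.t)
        have h3 : x - Q.t * y' = 2 * x' := by rw [hx]; ring
        rwa [h3] at h2
      exact (hp'.dvd_or_dvd h1).resolve_left hℓ2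
    have hℓα : Ideal.span {(ℓ : 𝓞 K)} ∣ Ideal.span {α} := by
      rw [Ideal.dvd_span_singleton, Ideal.mem_span_singleton, hxy]
      obtain ⟨a, ha⟩ := hℓx'
      obtain ⟨b, hb⟩ := hℓy
      refine ⟨a + b * Q.ω, ?_⟩
      rw [ha, hb]
      push_cast
      ring
    rw [hαI] at hℓα
    have hℓA : ℓ ∣ (q₁ * q₂) ^ p := by
      have h1 : (ℓ : ℤ) ∣ 4 * (A : ℤ) := by
        have h2 := dvd_sub (hℓx.pow (n := 2) (by norm_num)) ((hℓy.pow (n := 2) (by norm_num)).mul_left Q.D)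
        have h3 : x ^ 2 - Q.D * y' ^ 2 = 4 * (A : ℤ) := by rw [heq]; ring
        rwa [h3] at h2
      rcases hp'.dvd_or_dvd h1 with h2 | h2
      · exfalso
        have h3 : (ℓ : ℤ) ∣ 2 * 2 := by norm_num; exact h2
        rcases hp'.dvd_or_dvd h3 with h4 | h4 <;> exact hℓ2 h4
      · exact_mod_cast h2
    have hℓq : ℓ = q₁ ∨ ℓ = q₂ := by
      have h1 := hℓ.dvd_of_dvd_pow hℓA
      rcases (hℓ.dvd_mul).1 h1 with h2 | h2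
      · left; exact (Nat.prime_dvd_prime_iff_eq hℓ hq₁).1 h2
      · right; exact (Nat.prime_dvd_prime_iff_eq hℓ hq₂).1 h2
    have hcop12 : ∀ I J : Ideal (𝓞 K), (q₁ : 𝓞 K) ∈ I → (q₂ : 𝓞 K) ∈ J → IsCoprime I J := by
      intro I J hI hJ
      have h1 : IsCoprime (q₁ : ℤ) (q₂ : ℤ) := by
        rw [Nat.isCoprime_iff_coprime]
        exact (Nat.coprime_primes hq₁ hq₂).2 hne
      obtain ⟨u, v, huv⟩ := h1
      have huv' : (u : 𝓞 K) * q₁ + v * q₂ = 1 := by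
        have := congrArg (fun z : ℤ => (z : 𝓞 K)) huv
        push_cast at this
        exact this
      rw [Ideal.isCoprime_iff_exists]
      exact ⟨_, Ideal.mul_mem_left _ (u : 𝓞 K) hI, _, Ideal.mul_mem_left _ (v : 𝓞 K) hJ, huv'⟩
    have m1 : (q₁ : 𝓞 K) ∈ qJ Q q₁ r₁ := Ideal.subset_span (by simp)
    have m1' : (q₁ : 𝓞 K) ∈ qJ' Q q₁ r₁ := Ideal.subset_span (by simp)
    have m2 : (q₂ : 𝓞 K) ∈ qJ Q q₂ r₂ := Ideal.subset_span (by simp)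
    have m2' : (q₂ : 𝓞 K) ∈ qJ' Q q₂ r₂ := Ideal.subset_span (by simp)
    rcases hℓq with rfl | rfl
    · have h1 : qJ' Q ℓ r₁ ∣ qJ Q ℓ r₁ ^ p * qJ' Q q₂ r₂ ^ p := by
        refine dvd_trans ?_ hℓα
        rw [← mul_qJ hq₁ hq₁2 hr₁ hqD₁]
        exact dvd_mul_left _ _
      have h2 : IsCoprime (qJ' Q ℓ r₁) (qJ Q ℓ r₁ ^ p * qJ' Q q₂ r₂ ^ p) :=
        (((coprime_qJ hq₁ hq₁2 hr₁ hqD₁).symm).pow_right).mul_right
          ((hcop12 _ _ m1' m2').pow_right)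
      have h3 := h2.isUnit_of_dvd' dvd_rfl h1
      rw [Ideal.isUnit_iff] at h3
      exact qJ'_ne_top hq₁ hq₁2 hr₁ hqD₁ h3
    · have h1 : qJ Q ℓ r₂ ∣ qJ Q q₁ r₁ ^ p * qJ' Q ℓ r₂ ^ p := by
        refine dvd_trans ?_ hℓα
        rw [← mul_qJ hq₂ hq₂2 hr₂ hqD₂]
        exact dvd_mul_right _ _
      have h2 : IsCoprime (qJ Q ℓ r₂) (qJ Q q₁ r₁ ^ p * qJ' Q ℓ r₂ ^ p) :=
        ((hcop12 _ _ m1 m2).symm.pow_right).mul_right
          ((coprime_qJ hq₂ hq₂2 hr₂ hqD₂).pow_right)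
      have h3 := h2.isUnit_of_dvd' dvd_rfl h1
      rw [Ideal.isUnit_iff] at h3
      exact qJ_ne_top hq₂ hq₂2 hr₂ hqD₂ h3
  have h4 : ¬ ((4 : ℤ) ∣ x ∧ (4 : ℤ) ∣ y') := by
    rintro ⟨⟨a, ha⟩, ⟨b, hb⟩⟩
    rw [ha, hb] at heq
    have h5 : (A : ℤ) = 4 * (a ^ 2 - Q.D * b ^ 2) := by linarith
    obtain ⟨j, hj⟩ := hoddA
    omega
  set g : ℕ := Int.gcd x y' with hg
  have hgx : (g : ℤ) ∣ x := Int.gcd_dvd_left _ _
  have hgy : (g : ℤ) ∣ y' := Int.gcd_dvd_right _ _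
  have hg2 : g ∣ 2 := by
    rcases Nat.eq_two_pow_or_exists_odd_prime_and_dvd g with ⟨e, he⟩ | ⟨ℓ, hℓ, hℓg, hℓo⟩
    · have he1 : e ≤ 1 := by
        by_contra hcon
        push Not at hcon
        have h5 : 4 ∣ g := by
          rw [he]
          exact (show (4 : ℕ) = 2 ^ 2 by norm_num) ▸ pow_dvd_pow 2 hcon
        have h6 : (4 : ℤ) ∣ (g : ℤ) := by exact_mod_cast h5
        exact h4 ⟨h6.trans hgx, h6.trans hgy⟩
      rw [he]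
      calc 2 ^ e ∣ 2 ^ 1 := pow_dvd_pow 2 he1
        _ = 2 := pow_one 2
    · exfalso
      have h5 : (ℓ : ℤ) ∣ (g : ℤ) := by exact_mod_cast hℓg
      exact hodd ℓ hℓ hℓo (h5.trans hgx) (h5.trans hgy)
  intro h h6 hhx
  have h7 : h ∣ 2 * g := by
    have h8 : (h : ℤ) ∣ ((Int.gcd (2 * x) (2 * y') : ℕ) : ℤ) :=
      Int.dvd_coe_gcd hhx (h6.mul_left 2)
    rw [Int.gcd_mul_left] at h8
    exact_mod_cast h8
  have h8 : h ∣ 4 := h7.trans (by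
    calc 2 * g ∣ 2 * 2 := mul_dvd_mul_left 2 hg2
      _ = 4 := by norm_num)
  exact Nat.le_of_dvd (by norm_num) h8

end Pool.Agent.helper89.AM
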