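import Mathlib

set_option autoImplicit false

/-!
# The data attached to a solution of `x² = D y² + 4 J² L`
-/

namespace Pool.Agent.helper89.AM

/-- the root of `D` -/
lemma exists_s {D x y M : ℤ} (hM : Odd M) (hcop : IsCoprime y M) (hD : D % 4 = 0 ∨ D % 4 = 1)
    (hx : x ^ 2 = D * y ^ 2 + 4 * M) :
    ∃ s s₁ x₁ : ℤ, s ^ 2 = D + 4 * M * s₁ ∧ x = y * s + 2 * M * x₁ := by
  obtain ⟨u0, v0, huv⟩ := hcop
  -- parity of `x`
  have hpar : (x - D * y) % 2 = 0 := by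
    have h1 : (2 : ℤ) ∣ x * (x - 1) := by
      rcases Int.even_or_odd x with ⟨a, ha⟩ | ⟨a, ha⟩
      · exact ⟨a * (x - 1), by rw [ha]; ring⟩
      · exact ⟨x * a, by rw [ha]; ring⟩
    have h2 : (2 : ℤ) ∣ y * (y - 1) := by
      rcases Int.even_or_odd y with ⟨a, ha⟩ | ⟨a, ha⟩
      · exact ⟨a * (y - 1), by rw [ha]; ring⟩
      · exact ⟨y * a, by rw [ha]; ring⟩
    obtain ⟨a, ha⟩ := h1
    obtain ⟨b, hb⟩ := h2
    have h3 : x - D * y = 2 * (D * b + 2 * M - a) := by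
      linear_combination hx - ha + D * hb
    rw [h3]
    exact Int.mul_emod_right 2 _
  obtain ⟨m, hm⟩ := hM
  -- the root with the right parity
  obtain ⟨s, e, hs, hpar2⟩ : ∃ s e : ℤ, s = x * u0 + e * M ∧ (s - D) % 2 = 0 := by
    rcases Int.even_or_odd (x * u0 - D) with ⟨a, ha⟩ | ⟨a, ha⟩
    · exact ⟨x * u0, 0, by ring, by omega⟩
    · exact ⟨x * u0 + M, 1, by ring, by omega⟩
  have h1 : M ∣ x - y * s := by
    refine ⟨x * v0 - y * e, ?_⟩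
    rw [hs]
    linear_combination (-x) * huv
  have h2 : (2 : ℤ) ∣ x - y * s := by
    obtain ⟨a, ha⟩ := Int.dvd_of_emod_eq_zero hpar
    obtain ⟨b, hb⟩ := Int.dvd_of_emod_eq_zero hpar2
    refine ⟨a - y * b, ?_⟩
    linear_combination ha - y * hb
  have hc2 : IsCoprime (2 : ℤ) M := by
    refine ⟨-m, 1, ?_⟩
    rw [hm]; ring
  have h3 : 2 * M ∣ x - y * s := hc2.mul_dvd h2 h1
  have h4 : M ∣ s ^ 2 - D := by
    have h5 : M ∣ y ^ 2 * (s ^ 2 - D) := by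
      obtain ⟨a, ha⟩ := h1
      refine ⟨4 - a * (x + y * s), ?_⟩
      linear_combination hx - (x + y * s) * ha
    have h6 : IsCoprime M (y ^ 2) := by
      have : IsCoprime y M := ⟨u0, v0, huv⟩
      exact (this.symm).pow_right
    exact h6.dvd_of_dvd_mul_left h5
  have h5 : (4 : ℤ) ∣ s ^ 2 - D := by
    obtain ⟨b, hb⟩ := Int.dvd_of_emod_eq_zero hpar2
    have hs' : s = D + 2 * b := by linarith
    have h6 : s ^ 2 - D = D * (D - 1) + 4 * (D * b + b ^ 2) := by rw [hs']; ring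
    rw [h6]
    refine dvd_add ?_ (dvd_mul_right _ _)
    rcases hD with h | h
    · exact (Int.dvd_of_emod_eq_zero h).mul_right _
    · have : (4 : ℤ) ∣ D - 1 := by omega
      exact this.mul_left _
  have hc4 : IsCoprime (4 : ℤ) M := by
    have := hc2.pow_left (m := 2)
    norm_num at this
    exact this
  obtain ⟨s₁, hs₁⟩ := hc4.mul_dvd h5 h4
  obtain ⟨x₁, hx₁⟩ := h3
  exact ⟨s, s₁, x₁, by linarith, by linarith⟩

/-- Thue's lemma -/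
lemma exists_bn (s : ℤ) (J d : ℕ) (hJ : 0 < J) (hd : 0 < d) :
    ∃ b n t : ℤ, b = s * n + 2 * J * t ∧ (b ≠ 0 ∨ n ≠ 0) ∧ b ^ 4 ≤ 4 * J ^ 2 * d ∧
      d * n ^ 4 ≤ 4 * J ^ 2 := by
  set m : ℕ := 4 * J ^ 2 / d with hm
  set ν : ℕ := Nat.sqrt (Nat.sqrt m) with hν
  have h1 : ν ^ 4 ≤ m := by
    have e1 := Nat.sqrt_le' (Nat.sqrt m)
    have e2 := Nat.sqrt_le' m
    calc ν ^ 4 = (ν ^ 2) ^ 2 := by ring
      _ ≤ (Nat.sqrt m) ^ 2 := Nat.pow_le_pow_left e1 2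
      _ ≤ m := e2
  have h2 : m < (ν + 1) ^ 4 := by
    have e1 := Nat.lt_succ_sqrt' (Nat.sqrt m)
    have e2 := Nat.lt_succ_sqrt' m
    have e3 : Nat.sqrt m + 1 ≤ (ν + 1) ^ 2 := e1
    calc m < (Nat.sqrt m + 1) ^ 2 := e2
      _ ≤ ((ν + 1) ^ 2) ^ 2 := Nat.pow_le_pow_left e3 2
      _ = (ν + 1) ^ 4 := by ring
  have h3 : d * ν ^ 4 ≤ 4 * J ^ 2 := by
    calc d * ν ^ 4 ≤ d * m := Nat.mul_le_mul_left _ h1
      _ ≤ 4 * J ^ 2 := Nat.mul_div_le _ _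
  have h4 : 4 * J ^ 2 < d * (ν + 1) ^ 4 := by
    have e1 : 4 * J ^ 2 < d * (m + 1) := by
      have := Nat.lt_mul_div_succ (4 * J ^ 2) hd
      exact this
    exact lt_of_lt_of_le e1 (Nat.mul_le_mul_left _ h2)
  rcases Nat.eq_zero_or_pos ν with h0 | h0
  · refine ⟨2 * J, 0, 1, by ring, ?_, ?_, ?_⟩
    · left
      have : (0 : ℤ) < J := by exact_mod_cast hJ
      positivity
    · rw [h0] at h4
      have h5 : (4 * J ^ 2 : ℤ) < d := by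
        have : 4 * J ^ 2 < d := by simpa using h4
        exact_mod_cast this
      nlinarith [sq_nonneg (J : ℤ)]
    · simp only [ne_eq, OfNat.ofNat_ne_zero, not_false_eq_true, zero_pow, mul_zero]
      positivity
  · obtain ⟨j, n, hn0, hnν, hap⟩ := Real.exists_int_int_abs_mul_sub_le ((s : ℝ) / (2 * J)) h0
    have hJR : (0 : ℝ) < J := by exact_mod_cast hJ
    have hνR : (0 : ℝ) < (ν : ℝ) + 1 := by positivity
    refine ⟨s * n + 2 * J * (-j), n, -j, rfl, Or.inr hn0.ne', ?_, ?_⟩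
    · have h5 : |((s * n + 2 * J * (-j) : ℤ) : ℝ)| * (ν + 1) ≤ 2 * J := by
        have e1 : ((s * n + 2 * J * (-j) : ℤ) : ℝ) = 2 * J * (n * ((s : ℝ) / (2 * J)) - j) := by
          push_cast
          field_simp
          ring
        rw [e1, abs_mul, abs_of_pos (by positivity : (0 : ℝ) < 2 * J)]
        calc 2 * (J : ℝ) * |n * ((s : ℝ) / (2 * J)) - j| * (ν + 1)
            ≤ 2 * J * (1 / (ν + 1)) * (ν + 1) := by
              refine mul_le_mul_of_nonneg_right ?_ hνR.le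
              exact mul_le_mul_of_nonneg_left hap (by positivity)
          _ = 2 * J := by field_simp
      have h6 : |s * n + 2 * J * (-j)| * (ν + 1) ≤ 2 * J := by exact_mod_cast h5
      set b := s * n + 2 * J * (-j) with hb
      have h7 : (|b| * (ν + 1)) ^ 4 ≤ (2 * J) ^ 4 :=
        pow_le_pow_left₀ (by positivity) h6 4
      have h8 : b ^ 4 * (ν + 1) ^ 4 ≤ 16 * J ^ 4 := by
        have : |b| ^ 4 = b ^ 4 := by rw [← abs_pow, abs_of_nonneg (by positivity)]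
        rw [mul_pow, this] at h7
        linarith
      have h9 : (4 * J ^ 2 : ℤ) < d * (ν + 1) ^ 4 := by exact_mod_cast h4
      have h10 : (0 : ℤ) < (ν + 1) ^ 4 := by positivity
      have h11 : b ^ 4 * (ν + 1) ^ 4 ≤ (4 * J ^ 2 * d) * (ν + 1) ^ 4 := by
        refine h8.trans ?_
        have h12 : (0 : ℤ) ≤ 4 * J ^ 2 := by positivity
        nlinarith
      exact le_of_mul_le_mul_right h11 h10
    · have h5 : (n : ℤ) ^ 4 ≤ (ν : ℤ) ^ 4 := pow_le_pow_left₀ hn0.le hnν 4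
      have h6 : ((d : ℤ)) * (ν : ℤ) ^ 4 ≤ 4 * J ^ 2 := by exact_mod_cast h3
      have h7 : (0 : ℤ) ≤ d := by positivity
      nlinarith

/-- **The data.**  `w = y`. -/
theorem data {D x y : ℤ} {J L : ℕ} (hJ : 0 < J) (hL : 0 < L) (hodd : Odd ((J : ℤ) ^ 2 * L))
    (hcop : IsCoprime y ((J : ℤ) ^ 2 * L)) (hD4 : D % 4 = 0 ∨ D % 4 = 1) (hD0 : D ≠ 0)
    (hx : x ^ 2 = D * y ^ 2 + 4 * ((J : ℤ) ^ 2 * L)) (hy : |D| * y ^ 2 ≤ 4 * ((J : ℤ) ^ 2 * L)) :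
    ∃ k g n u v b : ℤ, (b ≠ 0 ∨ n ≠ 0) ∧ (n = 0 → (2 * J : ℤ) ∣ b) ∧
      2 * J * v = b ^ 2 - D * n ^ 2 ∧
      k * y = L * n ^ 2 - g ^ 2 ∧ u ^ 2 - L * v ^ 2 = D * k ^ 2 ∧
      v * (g ^ 2 + L * n ^ 2) - 2 * u * g * n = 2 * J * k ^ 2 ∧
      k ^ 2 ≤ 24 * L ∧ v ^ 2 ≤ 4 * |D| ∧ b ^ 4 ≤ 4 * J ^ 2 * |D| ∧ |D| * n ^ 4 ≤ 4 * J ^ 2 := by
  obtain ⟨s, s₁, x₁, hs, hxs⟩ := exists_s hodd hcop hD4 hx
  have hd : 0 < D.natAbs := Int.natAbs_pos.2 hD0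
  obtain ⟨b, n, t, hb, hne, hb4, hn4⟩ := exists_bn s J D.natAbs hJ hd
  have hDabs : ((D.natAbs : ℕ) : ℤ) = |D| := Int.natCast_natAbs D
  rw [hDabs] at hb4 hn4
  have hJZ : (0 : ℤ) < J := by exact_mod_cast hJ
  have hLZ : (0 : ℤ) < L := by exact_mod_cast hL
  set k : ℤ := L * s₁ * y * n ^ 2 + L * x₁ * s * n ^ 2 + 2 * J * L * x₁ * t * n - y * t ^ 2 with hk
  set g : ℤ := y * t - J * L * x₁ * n with hg
  set v : ℤ := 2 * J * L * s₁ * n ^ 2 + 2 * s * n * t + 2 * J * t ^ 2 with hv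
  set u : ℤ := L * s₁ * y * s * n ^ 2 + 4 * J * L * s₁ * y * n * t + y * s * t ^ 2 +
    L * x₁ * (D * n ^ 2 + 2 * (J ^ 2 * L) * s₁ * n ^ 2 + 2 * J * s * n * t + 2 * J ^ 2 * t ^ 2)
    with hu
  have e1 : 2 * J * g = y * b - x * n := by
    rw [hg, hb, hxs]; ring
  have e2 : 2 * J * v = b ^ 2 - D * n ^ 2 := by
    rw [hv, hb]
    linear_combination (-n ^ 2) * hs
  have e3 : 4 * J ^ 2 * k = 2 * x * b * n - y * (b ^ 2 + D * n ^ 2) := by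
    rw [hk, hb, hxs]
    linear_combination (-(y * n ^ 2)) * hs
  have e4 : 4 * J ^ 2 * u = x * (b ^ 2 + D * n ^ 2) - 2 * y * D * b * n := by
    rw [hu, hb, hxs]
    linear_combination (-(y * s * n ^ 2) - 4 * J * y * n * t - 2 * J ^ 2 * L * x₁ * n ^ 2) * hs
  refine ⟨k, g, n, u, v, b, hne, ?_, e2, ?_, ?_, ?_, ?_, ?_, hb4, hn4⟩
  · intro h0
    rw [hb, h0]
    exact ⟨t, by ring⟩
  · have h : 4 * (J : ℤ) ^ 2 * (k * y) = 4 * J ^ 2 * (L * n ^ 2 - g ^ 2) := by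
      linear_combination y * e3 + (2 * J * g + (y * b - x * n)) * e1 + n ^ 2 * hx
    exact mul_left_cancel₀ (by positivity) h
  · have h : 16 * (J : ℤ) ^ 4 * (u ^ 2 - L * v ^ 2) = 16 * J ^ 4 * (D * k ^ 2) := by
      linear_combination (4 * J ^ 2 * u + (x * (b ^ 2 + D * n ^ 2) - 2 * y * D * b * n)) * e4 -
        D * (4 * J ^ 2 * k + (2 * x * b * n - y * (b ^ 2 + D * n ^ 2))) * e3 -
        4 * J ^ 2 * L * (2 * J * v + (b ^ 2 - D * n ^ 2)) * e2 +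
        (b ^ 2 - D * n ^ 2) ^ 2 * hx
    exact mul_left_cancel₀ (by positivity) h
  · have h : 8 * (J : ℤ) ^ 3 * (v * (g ^ 2 + L * n ^ 2) - 2 * u * g * n) =
        8 * J ^ 3 * (2 * J * k ^ 2) := by
      linear_combination (4 * J ^ 2 * (g ^ 2 + L * n ^ 2)) * e2 +
        ((b ^ 2 - D * n ^ 2) * (2 * J * g + (y * b - x * n)) - 8 * J ^ 2 * u * n) * e1 -
        2 * n * (y * b - x * n) * e4 -
        (4 * J ^ 2 * k + (2 * x * b * n - y * (b ^ 2 + D * n ^ 2))) * e3 -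
        n ^ 2 * (b ^ 2 - D * n ^ 2) * hx
    exact mul_left_cancel₀ (by positivity) h
  · -- the bound for k
    have hP : (b ^ 2) ^ 2 ≤ 4 * J ^ 2 * |D| := by calc (b ^ 2) ^ 2 = b ^ 4 := by ring
      _ ≤ _ := hb4
    have hDpos : 0 < |D| := abs_pos.2 hD0
    have hQ : (|D| * n ^ 2) ^ 2 ≤ 4 * J ^ 2 * |D| := by
      calc (|D| * n ^ 2) ^ 2 = |D| * (|D| * n ^ 4) := by ring
        _ ≤ |D| * (4 * J ^ 2) := mul_le_mul_of_nonneg_left hn4 hDpos.le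
        _ = _ := by ring
    have hbn : (b * n) ^ 2 ≤ 4 * J ^ 2 := by
      have h1 : |D| * (b * n) ^ 2 ≤ |D| * (4 * J ^ 2) := by
        have h2 : |D| * (b * n) ^ 2 = b ^ 2 * (|D| * n ^ 2) := by ring
        rw [h2]
        nlinarith [sq_nonneg (b ^ 2 - |D| * n ^ 2)]
      exact le_of_mul_le_mul_left h1 hDpos
    have hxx : x ^ 2 ≤ 8 * (J ^ 2 * L) := by
      have : D * y ^ 2 ≤ |D| * y ^ 2 := mul_le_mul_of_nonneg_right (le_abs_self D) (sq_nonneg y)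
      linarith
    have h1 : (2 * x * b * n) ^ 2 ≤ 128 * ((J : ℤ) ^ 4 * L) := by
      calc (2 * x * b * n) ^ 2 = 4 * (x ^ 2 * (b * n) ^ 2) := by ring
        _ ≤ 4 * (8 * ((J : ℤ) ^ 2 * L) * (4 * (J : ℤ) ^ 2)) := by
            refine mul_le_mul_of_nonneg_left ?_ (by norm_num)
            exact mul_le_mul hxx hbn (sq_nonneg _) (by positivity)
        _ = 128 * ((J : ℤ) ^ 4 * L) := by ring
    have h2 : (y * (b ^ 2 + D * n ^ 2)) ^ 2 ≤ 64 * ((J : ℤ) ^ 4 * L) := by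
      have h3 : (b ^ 2 + D * n ^ 2) ^ 2 ≤ 16 * J ^ 2 * |D| := by
        have h4 : (D * n ^ 2) ^ 2 = (|D| * n ^ 2) ^ 2 := by
          rw [mul_pow, mul_pow, sq_abs]
        have h5 : (b ^ 2 + D * n ^ 2) ^ 2 ≤ 2 * (b ^ 2) ^ 2 + 2 * (D * n ^ 2) ^ 2 := by
          nlinarith [sq_nonneg (b ^ 2 - D * n ^ 2)]
        rw [h4] at h5
        linarith
      calc (y * (b ^ 2 + D * n ^ 2)) ^ 2 = y ^ 2 * (b ^ 2 + D * n ^ 2) ^ 2 := by ring
        _ ≤ y ^ 2 * (16 * J ^ 2 * |D|) := mul_le_mul_of_nonneg_left h3 (sq_nonneg y)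
        _ = 16 * J ^ 2 * (|D| * y ^ 2) := by ring
        _ ≤ 16 * (J : ℤ) ^ 2 * (4 * ((J : ℤ) ^ 2 * L)) := mul_le_mul_of_nonneg_left hy (by positivity)
        _ = 64 * ((J : ℤ) ^ 4 * L) := by ring
    have h3 : (4 * J ^ 2 * k) ^ 2 ≤ 384 * ((J : ℤ) ^ 4 * L) := by
      rw [e3]
      nlinarith [sq_nonneg (2 * x * b * n + y * (b ^ 2 + D * n ^ 2))]
    have h4 : (16 * (J : ℤ) ^ 4) * k ^ 2 ≤ (16 * J ^ 4) * (24 * L) := by
      calc (16 * (J : ℤ) ^ 4) * k ^ 2 = (4 * J ^ 2 * k) ^ 2 := by ring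
        _ ≤ 384 * ((J : ℤ) ^ 4 * L) := h3
        _ = (16 * (J : ℤ) ^ 4) * (24 * L) := by ring
    exact le_of_mul_le_mul_left h4 (by positivity)
  · -- the bound for v
    have hDpos : 0 < |D| := abs_pos.2 hD0
    have hP : (b ^ 2) ^ 2 ≤ 4 * J ^ 2 * |D| := by calc (b ^ 2) ^ 2 = b ^ 4 := by ring
      _ ≤ _ := hb4
    have hQ : (D * n ^ 2) ^ 2 ≤ 4 * J ^ 2 * |D| := by
      have h4 : (D * n ^ 2) ^ 2 = (|D| * n ^ 2) ^ 2 := by
        rw [mul_pow, mul_pow, sq_abs]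
      rw [h4]
      calc (|D| * n ^ 2) ^ 2 = |D| * (|D| * n ^ 4) := by ring
        _ ≤ |D| * (4 * J ^ 2) := mul_le_mul_of_nonneg_left hn4 hDpos.le
        _ = _ := by ring
    have h1 : (2 * J * v) ^ 2 ≤ 16 * J ^ 2 * |D| := by
      rw [e2]
      nlinarith [sq_nonneg (b ^ 2 + D * n ^ 2)]
    have h2 : (4 * (J : ℤ) ^ 2) * v ^ 2 ≤ (4 * J ^ 2) * (4 * |D|) := by
      calc (4 * (J : ℤ) ^ 2) * v ^ 2 = (2 * J * v) ^ 2 := by ring
        _ ≤ 16 * (J : ℤ) ^ 2 * |D| := h1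
        _ = (4 * (J : ℤ) ^ 2) * (4 * |D|) := by ring
    exact le_of_mul_le_mul_left h2 (by positivity)

end Pool.Agent.helper89.AM
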