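import Pool.Agent.helper47.RA.Field

set_option autoImplicit false

/-!
# The amplifier for both signs of the discriminant: definitions
-/

namespace Pool.Agent.helper89.AM

open Finset Pool.Agent.helper47.RA

/-- the Pell type condition for discriminants of both signs -/
def SolZ (A : ℕ) (D : ℤ) : Prop :=
  ∃ x y : ℤ, y ≠ 0 ∧ x ^ 2 = D * y ^ 2 + 4 * (A : ℤ) ∧ |D| * y ^ 2 ≤ 4 * (A : ℤ) ∧
    ∀ h : ℕ, (h : ℤ) ∣ y → (h : ℤ) ∣ 2 * x → h ≤ 4

/-- the integers `D` with `X < |D| ≤ 2 X` -/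
noncomputable def blk (X : ℕ) : Finset ℤ :=
  (Finset.Icc (-(2 * X : ℤ)) (2 * X)).filter (fun D => (X : ℤ) < |D|)

/-- the primes of `(Z, 4 Z]` -/
def prs (Z : ℕ) : Finset ℕ := (Finset.Ioc Z (4 * Z)).filter Nat.Prime

open Classical in
/-- the number of off-diagonal collisions for the discriminant `D` -/
noncomputable def offZ (p : ℕ) (P : Finset ℕ) (D : ℤ) : ℕ :=
  ((P ×ˢ P).filter (fun ij : ℕ × ℕ => ij.1 ≠ ij.2 ∧ SolZ ((ij.1 * ij.2) ^ p) D)).card

lemma SolZ_of_Sol {A : ℕ} {D : ℤ} (hD : 0 < D) (h : Sol A D) : SolZ A D := by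
  obtain ⟨x, y, hx, hy, h1, h2, h3⟩ := h
  refine ⟨x, y, by positivity, by exact_mod_cast h1, ?_, ?_⟩
  · rw [abs_of_pos hD]
    have : (0 : ℤ) ≤ A := by positivity
    linarith
  · intro h hy' hx'
    refine h3 h ?_ hx'
    have h4 : h ∣ y := by exact_mod_cast hy'
    exact pow_dvd_pow_of_dvd h4 2

end Pool.Agent.helper89.AM
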