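import Pool.Agent.helper89.AM.Defs
import Pool.Agent.helper89.AM.CollIm
import Pool.Agent.helper47.FT.A0

set_option autoImplicit false

/-!
# Bounds for one field, both signs
-/

namespace Pool.Agent.helper89.AM

open Finset NumberField Pool.Agent.helper47.RA Pool.Agent.helper3.FT

/-- the class group inequality, imaginary case -/
theorem cell_bound_im (ε : ℝ) (hε : 0 < ε) :
    ∃ C : ℝ, 1 ≤ C ∧ ∀ (K : Type) [Field K] [NumberField K] (Q : QF K) (X : ℕ), Q.D < 0 → 1 ≤ X →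
      |Q.D| ≤ 2 * X → ∀ (ι : Type) [Fintype ι] (q : ι → Ideal (𝓞 K)),
      (∀ i, 0 < Ideal.absNorm (q i)) → ∀ p : ℕ,
      (Nat.card {x : ClassGroup (𝓞 K) // x ^ p = 1} : ℝ) * (Fintype.card ι : ℝ) ^ 2 ≤
        C * (X : ℝ) ^ (1 / 2 + ε) *
          (Nat.card {ij : ι × ι // ColI p (q ij.1) (q ij.2)} : ℝ) := by
  obtain ⟨C, hC, hid⟩ := card_ideals_le (2 * ε) (by positivity)
  refine ⟨C * 7 ^ (1 + 2 * ε), ?_, ?_⟩
  · have h7 : (1 : ℝ) ≤ 7 ^ (1 + 2 * ε) := Real.one_le_rpow (by norm_num) (by linarith)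
    nlinarith
  intro K _ _ Q X hneg hX hQX ι _ q hq p
  have hXR : (1 : ℝ) ≤ X := by exact_mod_cast hX
  have hs0 := sqrt_abs_pos Q
  set B : ℕ := ⌈4 * √|(Q.D : ℝ)|⌉₊ with hB
  have hB1 : 4 * √|(Q.D : ℝ)| ≤ B := Nat.le_ceil _
  have hBpos : 1 ≤ B := by
    have : (0 : ℝ) < B := lt_of_lt_of_le (by linarith) hB1
    exact_mod_cast this
  have hBR : (1 : ℝ) ≤ B := by exact_mod_cast hBpos
  have hQXR : |(Q.D : ℝ)| ≤ 2 * X := by exact_mod_cast hQX
  have hB2 : (B : ℝ) ≤ 7 * (X : ℝ) ^ (1 / 2 : ℝ) := by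
    have h1 : (B : ℝ) < 4 * √|(Q.D : ℝ)| + 1 := Nat.ceil_lt_add_one (by linarith)
    rw [← Real.sqrt_eq_rpow]
    have h2 : √|(Q.D : ℝ)| ≤ √(2 * (X : ℝ)) := Real.sqrt_le_sqrt hQXR
    rw [Real.sqrt_mul (by norm_num)] at h2
    have h3 : √(2 : ℝ) ≤ 3 / 2 := by
      rw [Real.sqrt_le_left (by norm_num)]; norm_num
    have h4 : (1 : ℝ) ≤ √(X : ℝ) := by rw [Real.one_le_sqrt]; exact hXR
    nlinarith
  obtain ⟨hfin, hcard⟩ := hid K Q.ω Q.t Q.k Q.D Q.hD Q.ht Q.hk Q.hω Q.hspan B hBpos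
  have hmain := card_torsion_le_im Q hneg ι q hq p B hB1 hfin
  have hmain' : (Nat.card {x : ClassGroup (𝓞 K) // x ^ p = 1} : ℝ) * (Fintype.card ι : ℝ) ^ 2 ≤
      ({I : Ideal (𝓞 K) | 0 < Ideal.absNorm I ∧ Ideal.absNorm I ≤ B}.ncard : ℝ) *
      (Nat.card {ij : ι × ι // ColI p (q ij.1) (q ij.2)} : ℝ) := by
    exact_mod_cast hmain
  refine hmain'.trans (mul_le_mul_of_nonneg_right ?_ (Nat.cast_nonneg _))
  calc ({I : Ideal (𝓞 K) | 0 < Ideal.absNorm I ∧ Ideal.absNorm I ≤ B}.ncard : ℝ)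
      ≤ C * (B : ℝ) ^ (1 + 2 * ε) := hcard
    _ ≤ C * (7 * (X : ℝ) ^ (1 / 2 : ℝ)) ^ (1 + 2 * ε) := by
        refine mul_le_mul_of_nonneg_left ?_ (by positivity)
        exact Real.rpow_le_rpow (by positivity) hB2 (by linarith)
    _ = C * 7 ^ (1 + 2 * ε) * (X : ℝ) ^ (1 / 2 + ε) := by
        rw [Real.mul_rpow (by norm_num) (by positivity), ← Real.rpow_mul (by positivity)]
        have : 1 / 2 * (1 + 2 * ε) = 1 / 2 + ε := by ring
        rw [this]
        ring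

/-- collisions of the split primes, imaginary case -/
theorem card_coll_le_im {K : Type} [Field K] [NumberField K] (Q : QF K) (hneg : Q.D < 0)
    (P : Finset ℕ) (hP : ∀ q ∈ P, q.Prime ∧ q ≠ 2) (p : ℕ) (hp : Odd p) :
    ∃ q : {q : P // jacobiSym Q.D q = 1} → Ideal (𝓞 K), (∀ i, 0 < Ideal.absNorm (q i)) ∧
      Nat.card {ij : {q : P // jacobiSym Q.D q = 1} × {q : P // jacobiSym Q.D q = 1} //
        ColI p (q ij.1) (q ij.2)} ≤
      Nat.card {q : P // jacobiSym Q.D q = 1} + offZ p P Q.D := by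
  classical
  have hroot : ∀ q : {q : P // jacobiSym Q.D q = 1}, ∃ r : ℤ, ((q : ℕ) : ℤ) ∣ r ^ 2 - Q.D :=
    fun q => (exists_root (hP _ q.1.2).1 q.2).2
  choose r hr using hroot
  have hD : ∀ q : {q : P // jacobiSym Q.D q = 1}, ¬ ((q : ℕ) : ℤ) ∣ Q.D :=
    fun q => (exists_root (hP _ q.1.2).1 q.2).1
  refine ⟨fun q => qJ Q (q : ℕ) (r q), fun q => ?_, ?_⟩
  · rw [(absNorm_qJ (hP _ q.1.2).1 (hP _ q.1.2).2 (hr q) (hD q)).1]
    exact (hP _ q.1.2).1.pos
  · have h1 : Nat.card {ij : {q : P // jacobiSym Q.D q = 1} × {q : P // jacobiSym Q.D q = 1} //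
        ColI p (qJ Q (ij.1 : ℕ) (r ij.1)) (qJ Q (ij.2 : ℕ) (r ij.2))} ≤
        Nat.card ({q : P // jacobiSym Q.D q = 1} ⊕
          ((P ×ˢ P).filter (fun ij : ℕ × ℕ => ij.1 ≠ ij.2 ∧
            SolZ ((ij.1 * ij.2) ^ p) Q.D) : Finset (ℕ × ℕ))) := by
      refine Nat.card_le_card_of_injective (fun ij =>
        if h : (ij.1.1 : ℕ) = (ij.1.2 : ℕ) then Sum.inl ij.1.1 else
          Sum.inr ⟨((ij.1.1 : ℕ), (ij.1.2 : ℕ)), ?_⟩) ?_
      · obtain ⟨⟨i, j⟩, hij⟩ := ij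
        rw [Finset.mem_filter, Finset.mem_product]
        refine ⟨⟨i.1.2, j.1.2⟩, h, ?_⟩
        obtain ⟨x, y, h1, h2, h3⟩ := coll_eq_im Q hneg (hP _ i.1.2).1 (hP _ i.1.2).2 (hr i) (hD i)
          (hP _ j.1.2).1 (hP _ j.1.2).2 (hr j) (hD j) h hp hij
        refine ⟨x, y, h1, h2, ?_, h3⟩
        rw [abs_of_neg hneg]
        nlinarith [sq_nonneg x]
      · rintro ⟨⟨i, j⟩, hij⟩ ⟨⟨i', j'⟩, hij'⟩ h
        simp only at h
        by_cases e1 : (i : ℕ) = (j : ℕ)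
        · by_cases e2 : (i' : ℕ) = (j' : ℕ)
          · rw [dif_pos e1, dif_pos e2, Sum.inl.injEq] at h
            have hj : i = j := Subtype.ext (Subtype.ext e1)
            have hj' : i' = j' := Subtype.ext (Subtype.ext e2)
            subst hj hj' h
            rfl
          · rw [dif_pos e1, dif_neg e2] at h
            exact absurd h (by simp)
        · by_cases e2 : (i' : ℕ) = (j' : ℕ)
          · rw [dif_neg e1, dif_pos e2] at h
            exact absurd h (by simp)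
          · rw [dif_neg e1, dif_neg e2, Sum.inr.injEq, Subtype.mk.injEq, Prod.mk.injEq] at h
            have hi : i = i' := Subtype.ext (Subtype.ext h.1)
            have hj : j = j' := Subtype.ext (Subtype.ext h.2)
            subst hi hj
            rfl
    rw [Nat.card_sum, Nat.card_eq_fintype_card (α := ((P ×ˢ P).filter (fun ij : ℕ × ℕ =>
      ij.1 ≠ ij.2 ∧ SolZ ((ij.1 * ij.2) ^ p) Q.D) : Finset (ℕ × ℕ))), Fintype.card_coe] at h1
    refine h1.trans ?_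
    rw [offZ]

lemma off_le_offZ {p : ℕ} {P : Finset ℕ} {D : ℤ} (hD : 0 < D) : off p P D ≤ offZ p P D := by
  classical
  rw [off, offZ, ← Fintype.card_coe, ← Nat.card_eq_fintype_card]
  refine Nat.card_le_card_of_injective (fun ij => ⟨((ij.1.1 : ℕ), (ij.1.2 : ℕ)), ?_⟩) ?_
  · rw [Finset.mem_filter, Finset.mem_product]
    exact ⟨⟨ij.1.1.2, ij.1.2.2⟩, ij.2.1, SolZ_of_Sol hD ij.2.2⟩
  · rintro ⟨⟨i, j⟩, h⟩ ⟨⟨i', j'⟩, h'⟩ he
    simp only [Subtype.mk.injEq, Prod.mk.injEq] at he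
    have e1 : i = i' := Subtype.ext he.1
    have e2 : j = j' := Subtype.ext he.2
    subst e1 e2
    rfl

/-- bound for one field, imaginary case -/
theorem nonexc_bound_im (ε : ℝ) (hε : 0 < ε) :
    ∃ C : ℝ, 1 ≤ C ∧ ∀ (K : Type) [Field K] [NumberField K] (Q : QF K) (X : ℕ), Q.D < 0 → 1 ≤ X →
      |Q.D| ≤ 2 * X → ∀ p : ℕ, Odd p →
      ((Nat.card {x : ClassGroup (𝓞 K) // x ^ p = 1} : ℝ) ≤ C * (X : ℝ) ^ (1 / 2 + ε)) ∧
      ∀ P : Finset ℕ, (∀ q ∈ P, q.Prime ∧ q ≠ 2) →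
      P.card < 4 * (P.filter (fun q => jacobiSym Q.D q = 1)).card →
      (Nat.card {x : ClassGroup (𝓞 K) // x ^ p = 1} : ℝ) ≤
        C * (X : ℝ) ^ (1 / 2 + ε) * (4 / P.card + 16 * offZ p P Q.D / P.card ^ 2) := by
  classical
  obtain ⟨C, hC, hcell⟩ := cell_bound_im ε hε
  refine ⟨C, hC, ?_⟩
  intro K _ _ Q X hneg hX hRX p hp
  have hXR : (0 : ℝ) < X := by exact_mod_cast hX
  constructor
  · have h1 := hcell K Q X hneg hX hRX Unit (fun _ => ⊤) (fun _ => by simp) p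
    have h2 : (Nat.card {ij : Unit × Unit // ColI p ((fun _ => ⊤ : Unit → Ideal (𝓞 K)) ij.1)
        ((fun _ => ⊤ : Unit → Ideal (𝓞 K)) ij.2)} : ℝ) ≤ 1 := by
      have : Nat.card {ij : Unit × Unit // ColI p ((fun _ => ⊤ : Unit → Ideal (𝓞 K)) ij.1)
        ((fun _ => ⊤ : Unit → Ideal (𝓞 K)) ij.2)} ≤ 1 :=
        Finite.card_le_one_iff_subsingleton.2 inferInstance
      exact_mod_cast this
    simp only [Fintype.card_unit, Nat.cast_one, one_pow, mul_one] at h1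
    calc (Nat.card {x : ClassGroup (𝓞 K) // x ^ p = 1} : ℝ) ≤ _ := h1
      _ ≤ C * (X : ℝ) ^ (1 / 2 + ε) * 1 := mul_le_mul_of_nonneg_left h2 (by positivity)
      _ = _ := mul_one _
  · intro P hP hlarge
    obtain ⟨q, hq, hcoll⟩ := card_coll_le_im Q hneg P hP p hp
    have h1 := hcell K Q X hneg hX hRX {q : P // jacobiSym Q.D q = 1} q hq p
    have hι : Fintype.card {q : P // jacobiSym Q.D q = 1} =
        (P.filter (fun q => jacobiSym Q.D q = 1)).card := by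
      rw [Fintype.card_subtype, Finset.univ_eq_attach,
        Finset.filter_attach (fun q : ℕ => jacobiSym Q.D q = 1) P, Finset.card_map,
        Finset.card_attach]
    set S := (P.filter (fun q => jacobiSym Q.D q = 1)).card with hS
    rw [Nat.card_eq_fintype_card (α := {q : P // jacobiSym Q.D q = 1}), hι] at hcoll
    rw [hι] at h1
    have hSpos : 0 < S := by omega
    have hSR : (0 : ℝ) < S := by exact_mod_cast hSpos
    have hPS : (P.card : ℝ) < 4 * S := by exact_mod_cast hlarge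
    have hPpos : (0 : ℝ) < P.card := by
      have : S ≤ P.card := Finset.card_filter_le _ _
      have : 0 < P.card := by omega
      exact_mod_cast this
    have hcollR : (Nat.card {ij : {q : P // jacobiSym Q.D q = 1} × {q : P // jacobiSym Q.D q = 1} //
        ColI p (q ij.1) (q ij.2)} : ℝ) ≤ S + offZ p P Q.D := by exact_mod_cast hcoll
    have h2 : (Nat.card {x : ClassGroup (𝓞 K) // x ^ p = 1} : ℝ) * (S : ℝ) ^ 2 ≤
        C * (X : ℝ) ^ (1 / 2 + ε) * (S + offZ p P Q.D) :=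
      h1.trans (mul_le_mul_of_nonneg_left hcollR (by positivity))
    have h3 : (Nat.card {x : ClassGroup (𝓞 K) // x ^ p = 1} : ℝ) ≤
        C * (X : ℝ) ^ (1 / 2 + ε) * (1 / S + offZ p P Q.D / (S : ℝ) ^ 2) := by
      have h4 : C * (X : ℝ) ^ (1 / 2 + ε) * (S + offZ p P Q.D) =
          (C * (X : ℝ) ^ (1 / 2 + ε) * (1 / S + offZ p P Q.D / (S : ℝ) ^ 2)) * (S : ℝ) ^ 2 := by
        field_simp
      rw [h4] at h2
      exact le_of_mul_le_mul_right h2 (by positivity)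
    refine h3.trans (mul_le_mul_of_nonneg_left ?_ (by positivity))
    refine add_le_add ?_ ?_
    · rw [div_le_div_iff₀ hSR hPpos]; linarith
    · rw [div_le_div_iff₀ (by positivity) (by positivity)]
      have h5 : (P.card : ℝ) ^ 2 ≤ 16 * (S : ℝ) ^ 2 := by nlinarith
      have h6 : (0 : ℝ) ≤ offZ p P Q.D := Nat.cast_nonneg _
      nlinarith

/-- bound for one field, both signs, in terms of the function `f` -/
theorem field_bound (ε : ℝ) (hε : 0 < ε) :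
    ∃ C : ℝ, 1 ≤ C ∧ ∀ (p : ℕ) (f : ℤ → ℕ), Odd p →
      (∀ (K : Type) [Field K] [NumberField K], Module.finrank ℚ K = 2 →
        f (NumberField.discr K) =
          Nat.card {x : ClassGroup (NumberField.RingOfIntegers K) // x ^ p = 1}) →
      ∀ (X : ℕ) (D : ℤ), 1 ≤ X → IsFund D → |D| ≤ 2 * X →
      ((f D : ℝ) ≤ C * (X : ℝ) ^ (1 / 2 + ε)) ∧
      ∀ P : Finset ℕ, (∀ q ∈ P, q.Prime ∧ q ≠ 2) →
      P.card < 4 * (P.filter (fun q => jacobiSym D q = 1)).card →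
      (f D : ℝ) ≤ C * (X : ℝ) ^ (1 / 2 + ε) * (4 / P.card + 16 * offZ p P D / P.card ^ 2) := by
  obtain ⟨C₁, hC₁, h₁⟩ := nonexc_bound ε hε
  obtain ⟨C₂, hC₂, h₂⟩ := nonexc_bound_im ε hε
  refine ⟨max C₁ C₂, hC₁.trans (le_max_left _ _), fun p f hp hf X D hX hD hDX => ?_⟩
  have hXR : (0 : ℝ) < X := by exact_mod_cast hX
  have hXp : (0 : ℝ) ≤ (X : ℝ) ^ (1 / 2 + ε) := by positivity
  rcases lt_trichotomy D 0 with hneg | h0 | hpos
  · obtain ⟨K, i1, i2, Q, hfin, hdisc, hQD⟩ := exists_QF_neg D hD hneg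
    have hfD : (f D : ℝ) = (Nat.card {x : ClassGroup (𝓞 K) // x ^ p = 1} : ℝ) := by
      rw [← hdisc, hf K hfin]
    have h := h₂ K Q X (by rw [hQD]; exact hneg) hX (by rw [hQD]; exact hDX) p hp
    rw [hQD] at h
    have hle : C₂ * (X : ℝ) ^ (1 / 2 + ε) ≤ max C₁ C₂ * (X : ℝ) ^ (1 / 2 + ε) :=
      mul_le_mul_of_nonneg_right (le_max_right _ _) hXp
    rw [hfD]
    refine ⟨h.1.trans hle, fun P hP hl => (h.2 P hP hl).trans ?_⟩
    exact mul_le_mul_of_nonneg_right hle (by positivity)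
  · exfalso
    rw [h0] at hD
    rcases hD with ⟨h, _⟩ | ⟨m, hm, h, _⟩
    · norm_num at h
    · have : m = 0 := by omega
      subst this
      rcases h with h | h <;> norm_num at h
  · obtain ⟨K, i1, i2, R, hfin, hdisc, hRD⟩ := exists_RQ D hD hpos
    have hfD : (f D : ℝ) = (Nat.card {x : ClassGroup (𝓞 K) // x ^ p = 1} : ℝ) := by
      rw [← hdisc, hf K hfin]
    have h := h₁ K R X hX (by rw [hRD]; exact (le_abs_self D).trans hDX) p hp
    rw [hRD] at h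
    have hle : C₁ * (X : ℝ) ^ (1 / 2 + ε) ≤ max C₁ C₂ * (X : ℝ) ^ (1 / 2 + ε) :=
      mul_le_mul_of_nonneg_right (le_max_left _ _) hXp
    rw [hfD]
    refine ⟨h.1.trans hle, fun P hP hl => (h.2 P hP hl).trans ?_⟩
    refine (mul_le_mul_of_nonneg_right hle (by positivity)).trans ?_
    refine mul_le_mul_of_nonneg_left ?_ (by positivity)
    have h3 : (off p P D : ℝ) ≤ offZ p P D := by exact_mod_cast off_le_offZ hpos
    gcongr

end Pool.Agent.helper89.AM
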