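import Pool.Agent.helper3.FT.AlgDefs
import Pool.Agent.helper47.RA.Coll

set_option autoImplicit false

/-!
# The class group inequality for imaginary quadratic fields
-/

namespace Pool.Agent.helper89.AM

open NumberField nonZeroDivisors Pool.Agent.helper47.RA Pool.Agent.helper3.FT

variable {K : Type} [Field K] [NumberField K]

/-- collisions between two ideals -/
def ColI (p : ℕ) (I J : Ideal (𝓞 K)) : Prop :=
  ∃ β₁ β₂ : 𝓞 K, β₁ ≠ 0 ∧ β₂ ≠ 0 ∧ Ideal.span {β₁} * J ^ p = Ideal.span {β₂} * I ^ p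

lemma sqrt_abs_pos (Q : QF K) : 0 < √|(Q.D : ℝ)| := by
  have h : Q.D ≠ 0 := by
    intro h0
    have h1 := Q.hD
    rw [h0] at h1
    rcases h1 with ⟨h, _⟩ | ⟨m, hm, h, _⟩
    · norm_num at h
    · have : m = 0 := by omega
      subst this
      rcases h with h | h <;> norm_num at h
  have h2 : (Q.D : ℝ) ≠ 0 := by exact_mod_cast h
  exact Real.sqrt_pos.2 (abs_pos.2 h2)

/-- the cofactor ideal of a short element -/
theorem exists_short_im (Q : QF K) (hneg : Q.D < 0) (I : Ideal (𝓞 K)) (hI : 0 < Ideal.absNorm I) :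
    ∃ (β : 𝓞 K) (J : Ideal (𝓞 K)), β ≠ 0 ∧ Ideal.span {β} = I * J ∧ 0 < Ideal.absNorm J ∧
      ((Ideal.absNorm J : ℕ) : ℝ) ≤ 4 * √|(Q.D : ℝ)| := by
  have hs0 := sqrt_abs_pos Q
  have hIR : (0 : ℝ) < Ideal.absNorm I := by exact_mod_cast hI
  set W := √(4 * √|(Q.D : ℝ)| * (Ideal.absNorm I : ℝ)) with hW
  have hWsq : W * W = 4 * √|(Q.D : ℝ)| * Ideal.absNorm I := Real.mul_self_sqrt (by positivity)
  have hWpos : 0 < W := Real.sqrt_pos.2 (by positivity)
  obtain ⟨β, hβI, hβ0, h1, h2⟩ := Q.hmink I hI W W hWpos hWpos (le_of_eq hWsq.symm) (fun _ => rfl)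
  obtain ⟨J, hJ⟩ := Ideal.dvd_span_singleton.2 hβI
  have hn := Q.hnorm β
  have hspan0 : Ideal.span {β} ≠ ⊥ := by
    rw [Ne, Ideal.span_singleton_eq_bot]
    exact hβ0
  have hJ0 : Ideal.absNorm J ≠ 0 := by
    intro h
    rw [Ideal.absNorm_eq_zero_iff] at h
    rw [h, Ideal.mul_bot] at hJ
    exact hspan0 hJ
  refine ⟨β, J, hβ0, hJ, Nat.pos_of_ne_zero hJ0, ?_⟩
  rw [hJ, map_mul] at hn
  push_cast at hn
  have h3 : (Ideal.absNorm I : ℝ) * Ideal.absNorm J ≤ W * W := by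
    rw [hn]
    exact mul_le_mul h1 h2 (Q.v₂_nonneg β) hWpos.le
  rw [hWsq, mul_comm (4 * √|(Q.D : ℝ)|)] at h3
  exact le_of_mul_le_mul_left h3 hIR

theorem card_torsion_le_im (Q : QF K) (hneg : Q.D < 0) (ι : Type) [Fintype ι]
    (q : ι → Ideal (𝓞 K)) (hq : ∀ i, 0 < Ideal.absNorm (q i)) (p : ℕ) (B : ℕ)
    (hB : 4 * √|(Q.D : ℝ)| ≤ B)
    (hfin : {I : Ideal (𝓞 K) | 0 < Ideal.absNorm I ∧ Ideal.absNorm I ≤ B}.Finite) :
    Nat.card {x : ClassGroup (𝓞 K) // x ^ p = 1} * (Fintype.card ι) ^ 2 ≤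
      {I : Ideal (𝓞 K) | 0 < Ideal.absNorm I ∧ Ideal.absNorm I ≤ B}.ncard *
      Nat.card {ij : ι × ι // ColI p (q ij.1) (q ij.2)} := by
  classical
  set S := {I : Ideal (𝓞 K) | 0 < Ideal.absNorm I ∧ Ideal.absNorm I ≤ B} with hS
  rw [card_ker_eq]
  set H := (powMonoidHom p : ClassGroup (𝓞 K) →* ClassGroup (𝓞 K)).range with hH
  have := Fintype.ofFinite (ClassGroup (𝓞 K) ⧸ H)
  rw [Nat.card_eq_fintype_card]
  have hrep : ∀ κ : ClassGroup (𝓞 K) ⧸ H, ∃ I : (Ideal (𝓞 K))⁰, ClassGroup.mk0 I = κ.out :=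
    fun κ => ClassGroup.mk0_surjective κ.out
  choose rep hrep using hrep
  have hrepN : ∀ κ, 0 < Ideal.absNorm (rep κ : Ideal (𝓞 K)) := fun κ => by
    rw [Nat.pos_iff_ne_zero, Ne, Ideal.absNorm_eq_zero_iff]
    exact nonZeroDivisors.coe_ne_zero (rep κ)
  have hex : ∀ κ i, ∃ (β : 𝓞 K) (J : Ideal (𝓞 K)), β ≠ 0 ∧
      Ideal.span {β} = ((rep κ : Ideal (𝓞 K)) * q i ^ p) * J ∧ 0 < Ideal.absNorm J ∧
      ((Ideal.absNorm J : ℕ) : ℝ) ≤ 4 * √|(Q.D : ℝ)| := by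
    intro κ i
    refine exists_short_im Q hneg _ ?_
    rw [map_mul, map_pow]
    exact Nat.mul_pos (hrepN κ) (pow_pos (hq i) p)
  choose β J h1 h2 h3 h4 using hex
  have hcell : ∀ κ i, J κ i ∈ hfin.toFinset := by
    intro κ i
    rw [Set.Finite.mem_toFinset]
    refine ⟨h3 κ i, ?_⟩
    have := (h4 κ i).trans hB
    exact_mod_cast this
  have hcardCells : hfin.toFinset.card = S.ncard := (Set.ncard_eq_toFinset_card S hfin).symm
  -- different cosets, different cells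
  have hcos : ∀ κ κ' i i', J κ i = J κ' i' → κ = κ' := by
    intro κ κ' i i' hJ
    have hcl : ∀ κ i, ∃ x : ClassGroup (𝓞 K), ∀ hne : J κ i ∈ (Ideal (𝓞 K))⁰,
        κ.out * x ^ p * ClassGroup.mk0 ⟨J κ i, hne⟩ = 1 := by
      intro κ i
      have hqi : q i ∈ (Ideal (𝓞 K))⁰ := by
        rw [mem_nonZeroDivisors_iff_ne_zero]
        intro h0
        have := hq i
        rw [h0] at this
        simp at this
      refine ⟨ClassGroup.mk0 ⟨q i, hqi⟩, fun hne => ?_⟩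
      rw [← hrep κ, ← map_pow, ← map_mul, ← map_mul]
      have hsp : Ideal.span {β κ i} ∈ (Ideal (𝓞 K))⁰ := by
        rw [mem_nonZeroDivisors_iff_ne_zero]
        intro h0
        rw [Ideal.zero_eq_bot] at h0
        exact h1 κ i (Ideal.span_singleton_eq_bot.1 h0)
      have e1 : (rep κ * ⟨q i, hqi⟩ ^ p * ⟨J κ i, hne⟩ : (Ideal (𝓞 K))⁰) =
          ⟨Ideal.span {β κ i}, hsp⟩ := by
        apply Subtype.ext
        exact (h2 κ i).symm
      rw [e1, ClassGroup.mk0_eq_one_iff]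
      exact ⟨β κ i, rfl⟩
    obtain ⟨x, hx⟩ := hcl κ i
    obtain ⟨x', hx'⟩ := hcl κ' i'
    have hne : J κ i ∈ (Ideal (𝓞 K))⁰ := by
      rw [mem_nonZeroDivisors_iff_ne_zero]
      intro h0
      have := h3 κ i
      rw [h0] at this
      simp at this
    have hne' : J κ' i' ∈ (Ideal (𝓞 K))⁰ := hJ ▸ hne
    have e1 := hx hne
    have e2 := hx' hne'
    have e3 : (⟨J κ i, hne⟩ : (Ideal (𝓞 K))⁰) = ⟨J κ' i', hne'⟩ := Subtype.ext hJ
    rw [← e3] at e2
    have e4 : κ.out * x ^ p = κ'.out * x' ^ p := mul_right_cancel (e1.trans e2.symm)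
    have e5 : (κ.out : ClassGroup (𝓞 K) ⧸ H) = (κ'.out : ClassGroup (𝓞 K) ⧸ H) := by
      rw [QuotientGroup.eq]
      refine MonoidHom.mem_range.2 ⟨x * x'⁻¹, ?_⟩
      show (x * x'⁻¹) ^ p = _
      rw [mul_pow, inv_pow]
      rw [eq_comm, inv_mul_eq_iff_eq_mul, ← mul_assoc, eq_mul_inv_iff_mul_eq]
      exact e4.symm
    rwa [QuotientGroup.out_eq', QuotientGroup.out_eq'] at e5
  -- collisions
  have hcoll : ∀ κ i j, J κ i = J κ j → ColI p (q i) (q j) := by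
    intro κ i j hJ
    refine ⟨β κ i, β κ j, h1 κ i, h1 κ j, ?_⟩
    rw [h2 κ i, h2 κ j, hJ]
    ring
  have hCS : ∀ κ, (Fintype.card ι) ^ 2 ≤ (Finset.univ.image (J κ)).card *
      Nat.card {ij : ι × ι // ColI p (q ij.1) (q ij.2)} := by
    intro κ
    refine (sq_card_le (J κ)).trans (Nat.mul_le_mul_left _ ?_)
    rw [Nat.card_eq_fintype_card, Fintype.card_subtype]
    refine Finset.card_le_card fun ij hij => ?_
    rw [Finset.mem_filter] at hij ⊢
    exact ⟨Finset.mem_univ _, hcoll κ _ _ hij.2⟩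
  have hsum : ∑ κ : ClassGroup (𝓞 K) ⧸ H, (Finset.univ.image (J κ)).card ≤
      hfin.toFinset.card := by
    rw [← Finset.card_biUnion]
    · refine Finset.card_le_card fun x hx => ?_
      rw [Finset.mem_biUnion] at hx
      obtain ⟨κ, _, hx⟩ := hx
      rw [Finset.mem_image] at hx
      obtain ⟨i, _, rfl⟩ := hx
      exact hcell κ i
    · intro κ _ κ' _ hne
      rw [Function.onFun, Finset.disjoint_left]
      intro x hx hx'
      rw [Finset.mem_image] at hx hx'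
      obtain ⟨i, _, rfl⟩ := hx
      obtain ⟨i', _, h⟩ := hx'
      exact hne (hcos κ κ' i i' h.symm)
  calc Fintype.card (ClassGroup (𝓞 K) ⧸ H) * (Fintype.card ι) ^ 2
      = ∑ _κ : ClassGroup (𝓞 K) ⧸ H, (Fintype.card ι) ^ 2 := by
        rw [Finset.sum_const, Finset.card_univ, smul_eq_mul]
    _ ≤ ∑ κ : ClassGroup (𝓞 K) ⧸ H, (Finset.univ.image (J κ)).card *
          Nat.card {ij : ι × ι // ColI p (q ij.1) (q ij.2)} := Finset.sum_le_sum fun κ _ => hCS κ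
    _ = (∑ κ : ClassGroup (𝓞 K) ⧸ H, (Finset.univ.image (J κ)).card) *
          Nat.card {ij : ι × ι // ColI p (q ij.1) (q ij.2)} := by rw [Finset.sum_mul]
    _ ≤ hfin.toFinset.card * Nat.card {ij : ι × ι // ColI p (q ij.1) (q ij.2)} :=
        Nat.mul_le_mul_right _ hsum
    _ = _ := by rw [hcardCells]

end Pool.Agent.helper89.AM
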